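import Mathlib

set_option autoImplicit false

/-! Statements of the modules for the upper bound on `f(n, m, c, ε)` with fixed `c < 1/2`:
loss exponent at least `1 / (C L log L)`, `L = log (1/ε)`. -/

namespace Pool.Agent.Lib.MP_cecf76_co.Grid

open Finset Classical

/-- Cost on the grid `{0, …, q-1}`: a quarter of the square of `(|x - y| - 1)₊ / q`. -/
noncomputable def cost (q : ℕ) (x y : Fin q) : ℝ :=
  ((max (|(x.val : ℝ) - (y.val : ℝ)| - 1) 0) / q) ^ 2 / 4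

/-- G1 (OneDim): the one-dimensional discrete Prekopa-Leindler inequality. -/
def OneDimStmt : Prop := ∀ (q : ℕ) (f g : Fin q → ℝ), 0 < q → (∀ x, 0 ≤ f x) → (∀ x, 0 ≤ g x) →
  (∀ x y, f x * g y ≤ Real.exp (cost q x y)) → (∑ x, f x) * (∑ y, g y) ≤ (q : ℝ) ^ 2

/-- G2 (Tensor): the same inequality on the product. -/
def TensorStmt : Prop := ∀ (q N : ℕ) (f g : (Fin N → Fin q) → ℝ), 0 < q → (∀ x, 0 ≤ f x) →
  (∀ x, 0 ≤ g x) →
  (∀ x y, f x * g y ≤ Real.exp (∑ i, cost q (x i) (y i))) →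
    (∑ x, f x) * (∑ y, g y) ≤ ((q : ℝ) ^ N) ^ 2

/-- G3 (Iso): isoperimetry; `Fin.rev` is the antipodal map. -/
def IsoStmt : Prop := ∀ (q N : ℕ) (I : Finset (Fin N → Fin q)) (r : ℝ), 0 < q →
  (∀ x ∈ I, ∀ y ∈ I, r ≤ ∑ i, cost q (x i) (Fin.rev (y i))) →
    (I.card : ℝ) ≤ (q : ℝ) ^ N * Real.exp (-(r / 2))

/-- The sign of a boolean. -/
def sg (b : Bool) : ℝ := if b then 1 else -1

/-- The Rademacher sum. -/
noncomputable def rad {N : ℕ} (a : Fin N → ℝ) (s : Fin N → Bool) : ℝ := ∑ i, sg (s i) * a i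

/-- G5 (LO): Littlewood-Offord / Erdős: small ball probability of Rademacher sums. -/
def LOStmt : Prop := ∀ (N K : ℕ) (a : Fin N → ℝ) (R : ℝ), 0 < K → 0 ≤ R →
  K ≤ (univ.filter (fun i => 1 ≤ |a i|)).card →
    ((univ.filter (fun s : Fin N → Bool => |rad a s| < R)).card : ℝ) * Real.sqrt K ≤
      (R + 1) * 2 ^ N

/-- G6 (Hoeff): Hoeffding's inequality for Rademacher sums. -/
def HoeffStmt : Prop := ∀ (N : ℕ) (a : Fin N → ℝ) (t V : ℝ), 0 ≤ t → 0 < V → ∑ i, a i ^ 2 ≤ V →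
    ((univ.filter (fun s : Fin N → Bool => t ≤ rad a s)).card : ℝ) ≤
      2 ^ N * Real.exp (-(t ^ 2 / (2 * V)))

/-- The centred coordinate of a grid point. -/
noncomputable def ctr (q : ℕ) (x : Fin q) : ℝ := 2 * (x.val : ℝ) - ((q : ℝ) - 1)

/-- Grid points with at least a quarter of large coordinates. -/
def Good (q N : ℕ) (v : Fin N → Fin q) : Prop :=
  N ≤ 4 * (univ.filter (fun i => (q : ℝ) / 2 ≤ |ctr q (v i)|)).card

/-- G7 (Good): at least one sixth of the grid points are good. -/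
def GoodStmt : Prop := ∀ (q N : ℕ), 8 ≤ q →
  (q : ℝ) ^ N ≤ 6 * ((univ.filter (fun v : Fin N → Fin q => Good q N v)).card : ℝ)

/-- G8 (Samp): sampling `n` points of a finite probability space `Ω`. -/
def SampStmt : Prop := ∀ (Ω V : Type) [Fintype Ω] [Fintype V] [Nonempty Ω] (A : V → Finset Ω)
  (near : V → V → Prop) (n : ℕ) (c c' ε : ℝ), 0 ≤ c → c < c' → c' ≤ c + 1 → c' ≤ 1 → 0 < ε →
  (∀ v, c' * Fintype.card Ω ≤ ((A v).card : ℝ)) →
  (∀ v w, near v w → ((A v ∩ A w).card : ℝ) ≤ ε / 8 * Fintype.card Ω) →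
  (Fintype.card V : ℝ) * Real.exp (-((c' - c) ^ 2 * n / 2)) +
    (Fintype.card V : ℝ) ^ 2 * Real.exp (-(ε * n)) < 1 →
  ∃ s : Fin n → Ω, (∀ v, c * n < ((univ.filter (fun i => s i ∈ A v)).card : ℝ)) ∧
    (∀ v w, near v w →
      ((univ.filter (fun i => s i ∈ A v) ∩ univ.filter (fun i => s i ∈ A w)).card : ℝ) ≤ ε * n)

end Pool.Agent.Lib.MP_cecf76_co.Grid
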