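import Mathlib
import Pool.Agent.Lib.MP_cecf76_co.Core
import Pool.Agent.Lib.MP_cecf76_co.Grid.Stmts

set_option autoImplicit false

/-! Assembly of the upper bound for fixed `c < 1/2`. -/

namespace Pool.Agent.Lib.MP_cecf76_co.Grid

open Finset Classical

lemma rev_val {q : ℕ} (y : Fin q) : ((Fin.rev y).val : ℝ) = (q : ℝ) - 1 - y.val := by
  rw [Fin.val_rev]
  have h : q - (y.val + 1) + (y.val + 1) = q := Nat.sub_add_cancel y.isLt
  have h2 : ((q - (y.val + 1) : ℕ) : ℝ) + ((y.val : ℝ) + 1) = q := by exact_mod_cast h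
  linarith

lemma ctr_sq {q : ℕ} (hq : 0 < q) (x y : Fin q) :
    (ctr q x + ctr q y) ^ 2 ≤ 32 * (q : ℝ) ^ 2 * cost q x (Fin.rev y) + 8 := by
  have hqR : (0 : ℝ) < q := by exact_mod_cast hq
  have e1 : ctr q x + ctr q y = 2 * ((x.val : ℝ) - ((Fin.rev y).val : ℝ)) := by
    rw [rev_val]; unfold ctr; ring
  unfold cost
  rw [e1]
  set z : ℝ := |(x.val : ℝ) - ((Fin.rev y).val : ℝ)| with hz
  set w : ℝ := max (z - 1) 0 with hw
  have h1 : z ≤ w + 1 := by have := le_max_left (z - 1) 0; linarith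
  have hw0 : 0 ≤ w := le_max_right _ _
  have hz0 : 0 ≤ z := abs_nonneg _
  have h2 : (2 * ((x.val : ℝ) - ((Fin.rev y).val : ℝ))) ^ 2 = 4 * z ^ 2 := by
    rw [hz, sq_abs]; ring
  have h3 : 32 * (q : ℝ) ^ 2 * ((w / q) ^ 2 / 4) = 8 * w ^ 2 := by
    field_simp; ring
  rw [h2, h3]
  nlinarith [sq_nonneg (w - 1)]

lemma near_sum {q N : ℕ} (hq : 0 < q) {v w : Fin N → Fin q} {r : ℝ}
    (h : ∑ i, cost q (v i) (Fin.rev (w i)) < r) :
    ∑ i, (ctr q (v i) + ctr q (w i)) ^ 2 ≤ 32 * (q : ℝ) ^ 2 * r + 8 * N := by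
  have hqR : (0 : ℝ) < q := by exact_mod_cast hq
  calc ∑ i, (ctr q (v i) + ctr q (w i)) ^ 2
      ≤ ∑ i, (32 * (q : ℝ) ^ 2 * cost q (v i) (Fin.rev (w i)) + 8) :=
        sum_le_sum (fun i _ => ctr_sq hq _ _)
    _ = 32 * (q : ℝ) ^ 2 * ∑ i, cost q (v i) (Fin.rev (w i)) + 8 * N := by
        rw [sum_add_distrib, ← mul_sum, sum_const, card_univ, Fintype.card_fin, nsmul_eq_mul]
        ring
    _ ≤ _ := by
        have := mul_le_mul_of_nonneg_left h.le (by positivity : (0 : ℝ) ≤ 32 * (q : ℝ) ^ 2)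
        linarith

/-- The cap attached to a grid point. -/
noncomputable def cap (q : ℕ) {N : ℕ} (T : ℝ) (v : Fin N → Fin q) : Finset (Fin N → Bool) :=
  univ.filter (fun s => T ≤ rad (fun i => ctr q (v i)) s)

lemma rad_not {N : ℕ} (a : Fin N → ℝ) (s : Fin N → Bool) :
    rad a (fun i => !(s i)) = -rad a s := by
  unfold rad
  rw [← sum_neg_distrib]
  apply sum_congr rfl
  intro i _
  cases h : s i <;> simp [sg, h]

lemma cap_card (hLO : LOStmt) {q N : ℕ} (hq : 0 < q) (hN : 0 < N) {τ : ℝ} (hτ : 0 < τ)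
    {v : Fin N → Fin q} (hv : Good q N v) :
    (1 / 2 - 2 * τ - 1 / Real.sqrt N) * 2 ^ N ≤
      ((cap q (τ * Real.sqrt N * q) v).card : ℝ) := by
  have hqR : (0 : ℝ) < q := by exact_mod_cast hq
  have hNR : (0 : ℝ) < N := by exact_mod_cast hN
  have hsN : 0 < Real.sqrt N := Real.sqrt_pos.2 hNR
  set T : ℝ := τ * Real.sqrt N * q with hT
  set a : Fin N → ℝ := fun i => ctr q (v i) with ha
  set K : ℕ := (univ.filter (fun i => (q : ℝ) / 2 ≤ |ctr q (v i)|)).card with hK
  have hK4 : N ≤ 4 * K := hv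
  have hK0 : 0 < K := by omega
  have hK4R : (N : ℝ) ≤ 4 * K := by exact_mod_cast hK4
  have hlo := hLO N K (fun i => a i / (q / 2)) (2 * τ * Real.sqrt N) hK0 (by positivity) (by
    apply le_of_eq
    rw [hK]
    congr 1
    ext i
    simp only [mem_filter, mem_univ, true_and, ha]
    rw [abs_div, abs_of_pos (by positivity : (0 : ℝ) < q / 2), le_div_iff₀ (by positivity), one_mul])
  have hrad : ∀ s : Fin N → Bool, rad (fun i => a i / (q / 2)) s = rad a s / (q / 2) := by
    intro s
    unfold rad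
    rw [sum_div]
    apply sum_congr rfl
    intro i _; ring
  have hfil : (univ.filter (fun s : Fin N → Bool => |rad (fun i => a i / (q / 2)) s| <
      2 * τ * Real.sqrt N)) = univ.filter (fun s : Fin N → Bool => |rad a s| < T) := by
    ext s
    simp only [mem_filter, mem_univ, true_and]
    rw [hrad, abs_div, abs_of_pos (by positivity : (0 : ℝ) < q / 2), div_lt_iff₀ (by positivity), hT]
    constructor <;> intro h <;> nlinarith
  rw [hfil] at hlo
  set S : ℝ := ((univ.filter (fun s : Fin N → Bool => |rad a s| < T)).card : ℝ) with hS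
  -- `S ≤ (4 τ + 2/√N) 2^N`
  have hsK : Real.sqrt N / 2 ≤ Real.sqrt K := by
    apply Real.le_sqrt_of_sq_le
    rw [div_pow, Real.sq_sqrt hNR.le]
    linarith
  have hS0 : 0 ≤ S := by positivity
  have hS1 : S * (Real.sqrt N / 2) ≤ (2 * τ * Real.sqrt N + 1) * 2 ^ N :=
    (mul_le_mul_of_nonneg_left hsK hS0).trans hlo
  have hS2 : S ≤ (4 * τ + 2 / Real.sqrt N) * 2 ^ N := by
    have h1 : (4 * τ + 2 / Real.sqrt N) * 2 ^ N * (Real.sqrt N / 2) =
        (2 * τ * Real.sqrt N + 1) * 2 ^ N := by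
      field_simp
      ring
    have h2 : S * (Real.sqrt N / 2) ≤ (4 * τ + 2 / Real.sqrt N) * 2 ^ N * (Real.sqrt N / 2) := by
      rw [h1]; exact hS1
    exact le_of_mul_le_mul_right h2 (by positivity)
  -- symmetry
  have hsym : (univ.filter (fun s : Fin N → Bool => rad a s ≤ -T)).card = (cap q T v).card := by
    apply Finset.card_bij (fun s _ => fun i => !(s i))
    · intro s hs
      simp only [cap, mem_filter, mem_univ, true_and] at hs ⊢
      rw [rad_not]; linarith
    · intro s _ s' _ h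
      funext i
      have := congrFun h i
      simpa using this
    · intro s hs
      refine ⟨fun i => !(s i), ?_, ?_⟩
      · simp only [cap, mem_filter, mem_univ, true_and] at hs ⊢
        rw [rad_not]; linarith
      · funext i; simp
  have hcover : (univ : Finset (Fin N → Bool)) ⊆ (cap q T v ∪
      univ.filter (fun s : Fin N → Bool => rad a s ≤ -T)) ∪
      univ.filter (fun s : Fin N → Bool => |rad a s| < T) := by
    intro s _
    simp only [cap, mem_union, mem_filter, mem_univ, true_and]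
    rcases lt_or_ge |rad a s| T with h | h
    · exact Or.inr h
    · rcases le_abs.1 h with h | h
      · exact Or.inl (Or.inl h)
      · exact Or.inl (Or.inr (by linarith))
  have hcount := (card_le_card hcover).trans ((card_union_le _ _).trans
    (Nat.add_le_add_right (card_union_le _ _) _))
  rw [hsym, card_univ, Fintype.card_fun, Fintype.card_bool, Fintype.card_fin] at hcount
  have hcR : (2 : ℝ) ^ N ≤ (cap q T v).card + (cap q T v).card + S := by
    rw [hS]; exact_mod_cast hcount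
  have h1 : (1 / 2 - 2 * τ - 1 / Real.sqrt N) * 2 ^ N =
      (2 ^ N - (4 * τ + 2 / Real.sqrt N) * 2 ^ N) / 2 := by ring
  rw [h1]
  linarith

lemma cap_inter (hHo : HoeffStmt) {q N : ℕ} (hq : 0 < q) (hN : 0 < N) {τ η ε : ℝ} (hτ : 0 < τ)
    (hη : 0 < η) (hε : 0 < ε) (hηq : 8 ≤ η * (q : ℝ) ^ 2) (hlog : Real.log (8 / ε) ≤ τ ^ 2 / η)
    {v w : Fin N → Fin q}
    (h : ∑ i, cost q (v i) (Fin.rev (w i)) < η * N / 32) (X : Finset (Fin N → Bool))
    (hX : ∀ s ∈ X, s ∈ cap q (τ * Real.sqrt N * q) v ∧ s ∈ cap q (τ * Real.sqrt N * q) w) :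
    (X.card : ℝ) ≤ ε / 8 * 2 ^ N := by
  have hqR : (0 : ℝ) < q := by exact_mod_cast hq
  have hNR : (0 : ℝ) < N := by exact_mod_cast hN
  set T : ℝ := τ * Real.sqrt N * q with hT
  have hT0 : 0 ≤ T := by positivity
  set W : ℝ := 32 * (q : ℝ) ^ 2 * (η * N / 32) + 8 * N with hW
  have hW0 : 0 < W := by positivity
  have h1 := hHo N (fun i => ctr q (v i) + ctr q (w i)) (2 * T) W (by positivity) hW0
    (near_sum hq h)
  have hsub : X ⊆ univ.filter (fun s : Fin N → Bool =>
      2 * T ≤ rad (fun i => ctr q (v i) + ctr q (w i)) s) := by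
    intro s hs
    replace hs := hX s hs
    simp only [cap, mem_filter, mem_univ, true_and] at hs ⊢
    have : rad (fun i => ctr q (v i) + ctr q (w i)) s =
        rad (fun i => ctr q (v i)) s + rad (fun i => ctr q (w i)) s := by
      unfold rad
      rw [← sum_add_distrib]
      apply sum_congr rfl
      intro i _; ring
    rw [this]
    linarith [hs.1, hs.2]
  have h2 : (X.card : ℝ) ≤
      2 ^ N * Real.exp (-((2 * T) ^ 2 / (2 * W))) := by
    refine le_trans ?_ h1
    exact_mod_cast card_le_card hsub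
  refine h2.trans ?_
  have h3 : Real.exp (-((2 * T) ^ 2 / (2 * W))) ≤ ε / 8 := by
    have h4 : Real.log (8 / ε) ≤ (2 * T) ^ 2 / (2 * W) := by
      refine hlog.trans ?_
      rw [div_le_div_iff₀ hη (by positivity)]
      have h5 : T ^ 2 = τ ^ 2 * N * (q : ℝ) ^ 2 := by
        rw [hT, mul_pow, mul_pow, Real.sq_sqrt hNR.le]
      have h6 : (2 * T) ^ 2 = 4 * (τ ^ 2 * N * (q : ℝ) ^ 2) := by rw [mul_pow, h5]; ring
      rw [h6, hW]
      have h7 : τ ^ 2 * N * 8 ≤ τ ^ 2 * N * (η * (q : ℝ) ^ 2) :=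
        mul_le_mul_of_nonneg_left hηq (by positivity)
      nlinarith
    have h8 : Real.exp (-((2 * T) ^ 2 / (2 * W))) ≤ Real.exp (-(Real.log (8 / ε))) :=
      Real.exp_le_exp.2 (by linarith)
    rw [Real.exp_neg (Real.log (8 / ε)), Real.exp_log (by positivity), inv_div] at h8
    exact h8
  calc (2 : ℝ) ^ N * Real.exp (-((2 * T) ^ 2 / (2 * W))) ≤ 2 ^ N * (ε / 8) :=
        mul_le_mul_of_nonneg_left h3 (by positivity)
    _ = _ := by ring

/-- The upper bound in terms of the parameters of the construction. -/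
theorem grid_core (hIso : IsoStmt) (hLO : LOStmt) (hHo : HoeffStmt) (hGood : GoodStmt)
    (hSamp : SampStmt) {n m q N : ℕ} {c ε τ η : ℝ} (hq : 8 ≤ q) (hN : 0 < N) (hn : 0 < n)
    (hτ : 0 < τ) (hη : 0 < η) (hε : 0 < ε) (hεc : ε ≤ c) (hηq : 8 ≤ η * (q : ℝ) ^ 2)
    (hlog : Real.log (8 / ε) ≤ τ ^ 2 / η) (hc' : c < 1 / 2 - 2 * τ - 1 / Real.sqrt N)
    (hm : q ^ N ≤ m)
    (hs : (q : ℝ) ^ N * Real.exp (-((1 / 2 - 2 * τ - 1 / Real.sqrt N - c) ^ 2 * n / 2)) +
      ((q : ℝ) ^ N) ^ 2 * Real.exp (-(ε * n)) < 1) :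
    (f n m c ε : ℝ) ≤ 12 * m * Real.exp (-(η * N / 64)) := by
  have hq0 : 0 < q := by omega
  have hqR : (0 : ℝ) < q := by exact_mod_cast hq0
  have hNR : (0 : ℝ) < N := by exact_mod_cast hN
  have hnR : (0 : ℝ) < n := by exact_mod_cast hn
  set T : ℝ := τ * Real.sqrt N * q with hT
  let V := {v : Fin N → Fin q // Good q N v}
  let near : V → V → Prop := fun v w => ∑ i, cost q (v.1 i) (Fin.rev (w.1 i)) < η * N / 32
  have hVcard : (Fintype.card V : ℝ) ≤ (q : ℝ) ^ N := by
    have h1 : Fintype.card V ≤ Fintype.card (Fin N → Fin q) :=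
      Fintype.card_le_of_injective Subtype.val Subtype.val_injective
    rw [Fintype.card_fun, Fintype.card_fin, Fintype.card_fin] at h1
    exact_mod_cast h1
  have hVcard2 : (q : ℝ) ^ N ≤ 6 * (Fintype.card V : ℝ) := by
    have h1 := hGood q N hq
    have h2 : Fintype.card V = (univ.filter (fun v : Fin N → Fin q => Good q N v)).card :=
      Fintype.card_subtype _
    rw [h2]; exact h1
  have hV0R : (0 : ℝ) < Fintype.card V := by
    have : (0 : ℝ) < (q : ℝ) ^ N := by positivity
    linarith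
  have hV0 : 0 < Fintype.card V := by exact_mod_cast hV0R
  have hc0 : 0 < c := hε.trans_le hεc
  have hΩ : (Fintype.card (Fin N → Bool) : ℝ) = 2 ^ N := by
    rw [Fintype.card_fun, Fintype.card_bool, Fintype.card_fin]; push_cast; rfl
  obtain ⟨B, hs1, hs2⟩ : ∃ B : V → Finset (Fin n), (∀ v, c * n < ((B v).card : ℝ)) ∧
      ∀ v w, near v w → ((B v ∩ B w).card : ℝ) ≤ ε * n := by
   obtain ⟨s, hs1, hs2⟩ := hSamp (Fin N → Bool) V (fun v => cap q T v.1) near n c
    (1 / 2 - 2 * τ - 1 / Real.sqrt N) ε hc0.le hc'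
    (by have : 0 < 1 / Real.sqrt N := by positivity
        linarith)
    (by have : 0 < 1 / Real.sqrt N := by positivity
        linarith) hε
    (by intro v
        rw [hΩ]
        exact cap_card hLO hq0 hN hτ v.2)
    (by intro v w hvw
        rw [hΩ]
        exact cap_inter hHo hq0 hN hτ hη hε hηq hlog hvw _
          (fun s hs => by simpa only [Finset.mem_inter] using hs))
    (by
      refine lt_of_le_of_lt ?_ hs
      apply add_le_add
      · exact mul_le_mul_of_nonneg_right hVcard (Real.exp_pos _).le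
      · apply mul_le_mul_of_nonneg_right _ (Real.exp_pos _).le
        exact pow_le_pow_left₀ hV0R.le hVcard 2)
   exact ⟨_, hs1, hs2⟩
  set M : ℕ := Fintype.card V with hM
  have hMm : M ≤ m := by
    have h1 : (M : ℝ) ≤ m := hVcard.trans (by exact_mod_cast hm)
    exact_mod_cast h1
  let e : Fin M ≃ V := (Fintype.equivFin V).symm
  let h : Fin m → V := fun i => e ⟨i.val % M, Nat.mod_lt _ hV0⟩
  apply f_le _ (fun i => B (h i))
  · intro i
    exact hs1 (h i)
  intro I hI
  set F := I.image h with hF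
  have hfar : ∀ x ∈ F, ∀ y ∈ F, ¬ near x y := by
    intro x hx y hy hxy
    obtain ⟨i, hi, rfl⟩ := mem_image.1 hx
    obtain ⟨j, hj, rfl⟩ := mem_image.1 hy
    have h2 := hs2 _ _ hxy
    by_cases hij : i = j
    · subst hij
      rw [inter_self] at h2
      have h3 := hs1 (h i)
      have h4 : ε * n ≤ c * n := mul_le_mul_of_nonneg_right hεc hnR.le
      linarith
    · have h3 := hI i hi j hj hij
      linarith
  have hFcard : (F.card : ℝ) ≤ (q : ℝ) ^ N * Real.exp (-(η * N / 64)) := by
    have h1 := hIso q N (F.map (Function.Embedding.subtype _)) (η * N / 32) hq0 (by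
      intro x hx y hy
      rw [mem_map] at hx hy
      obtain ⟨x', hx', rfl⟩ := hx
      obtain ⟨y', hy', rfl⟩ := hy
      have := hfar x' hx' y' hy'
      simp only [near, not_lt] at this
      exact this)
    rw [card_map] at h1
    refine h1.trans (le_of_eq ?_)
    congr 2
    ring
  have hfib : ∀ a ∈ F, (I.filter (fun i => h i = a)).card ≤ m / M + 1 := by
    intro a _
    have h1 : (I.filter (fun i => h i = a)).card ≤ (Finset.range (m / M + 1)).card := by
      apply Finset.card_le_card_of_injOn (fun i => i.val / M)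
      · intro i _
        simp only [Finset.coe_range, Set.mem_Iio]
        have := Nat.div_le_div_right (c := M) i.isLt.le
        omega
      · intro i hi j hj hij
        simp only [Finset.coe_filter, Set.mem_ofPred_eq] at hi hj
        have h2 : h i = h j := by rw [hi.2, hj.2]
        have h3 : i.val % M = j.val % M := by
          have := e.injective h2
          simpa using this
        apply Fin.ext
        rw [← Nat.div_add_mod i.val M, ← Nat.div_add_mod j.val M, h3]
        congr 2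
    simpa using h1
  have hcardI : I.card ≤ (m / M + 1) * F.card :=
    Finset.card_le_mul_card_image (f := h) I (m / M + 1) hfib
  have hcardI' : (I.card : ℝ) ≤ (2 * m / M) * F.card := by
    have h1 : (I.card : ℝ) ≤ ((m / M + 1 : ℕ) : ℝ) * F.card := by exact_mod_cast hcardI
    refine h1.trans (mul_le_mul_of_nonneg_right ?_ (by positivity))
    push_cast
    have h2 : (((m / M : ℕ)) : ℝ) ≤ (m : ℝ) / M := Nat.cast_div_le
    have h3 : (1 : ℝ) ≤ (m : ℝ) / M := by
      rw [one_le_div hV0R]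
      exact_mod_cast hMm
    have h4 : 2 * (m : ℝ) / M = (m : ℝ) / M + (m : ℝ) / M := by ring
    rw [h4]
    linarith
  calc (I.card : ℝ) ≤ (2 * m / M) * F.card := hcardI'
    _ ≤ (2 * m / M) * ((q : ℝ) ^ N * Real.exp (-(η * N / 64))) :=
        mul_le_mul_of_nonneg_left hFcard (by positivity)
    _ ≤ (2 * m / M) * ((6 * M) * Real.exp (-(η * N / 64))) := by
        apply mul_le_mul_of_nonneg_left _ (by positivity)
        exact mul_le_mul_of_nonneg_right hVcard2 (Real.exp_pos _).le
    _ = 12 * m * Real.exp (-(η * N / 64)) := by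
        field_simp
        ring

end Pool.Agent.Lib.MP_cecf76_co.Grid
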