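import Pool.Agent.Lib.MP_cecf76_co.Grid.Stmts

set_option autoImplicit false

/-! G7: at least one sixth of the grid points are good. -/

namespace Pool.Agent.Lib.MP_cecf76_co.Grid

open Finset Classical

namespace GoodAux

/-- the small coordinates -/
noncomputable def Sm (q : ℕ) : Finset (Fin q) := univ.filter (fun x => |ctr q x| < (q : ℝ) / 2)

lemma card_Sm (q : ℕ) (hq : 8 ≤ q) : 8 * (Sm q).card ≤ 5 * q := by
  have h1 : (Sm q).card ≤ (Finset.Ioc ((q - 2) / 4) ((3 * q - 3) / 4)).card := by
    refine card_le_card_of_injOn (fun x => x.val) ?_ ?_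
    · intro x hx
      have hx' : x ∈ Sm q := hx
      unfold Sm at hx'
      rw [mem_filter] at hx'
      have h2 := abs_lt.mp hx'.2
      unfold ctr at h2
      have h3 : (q : ℝ) < 4 * x.val + 2 := by linarith [h2.1]
      have h4 : (4 * x.val + 2 : ℝ) < 3 * q := by linarith [h2.2]
      have h5 : q < 4 * x.val + 2 := by exact_mod_cast h3
      have h6 : 4 * x.val + 2 < 3 * q := by exact_mod_cast h4
      simp only [coe_Ioc, Set.mem_Ioc]
      omega
    · intro x _ y _ h
      exact Fin.ext h
  rw [Nat.card_Ioc] at h1
  omega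

lemma card_coord (q N : ℕ) (i : Fin N) :
    (univ.filter (fun v : Fin N → Fin q => v i ∈ Sm q)).card * q = (Sm q).card * q ^ N := by
  have h1 : univ.filter (fun v : Fin N → Fin q => v i ∈ Sm q) =
      Fintype.piFinset (fun j => if j = i then Sm q else univ) := by
    ext v
    simp only [mem_filter, mem_univ, true_and, Fintype.mem_piFinset]
    constructor
    · intro h j
      split_ifs with hj
      · exact hj ▸ h
      · exact mem_univ _
    · intro h
      have := h i
      rwa [if_pos rfl] at this
  rw [h1, Fintype.card_piFinset]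
  have h2 : ∀ j : Fin N, (if j = i then Sm q else univ).card = if j = i then (Sm q).card else q := by
    intro j
    split_ifs
    · rfl
    · simp
  simp only [h2]
  rw [← Finset.mul_prod_erase univ _ (mem_univ i), if_pos rfl]
  have h3 : ∏ j ∈ univ.erase i, (if j = i then (Sm q).card else q) = q ^ (N - 1) := by
    rw [Finset.prod_congr rfl (fun j hj => if_neg (ne_of_mem_erase hj)), prod_const,
      card_erase_of_mem (mem_univ i), card_univ, Fintype.card_fin]
  rw [h3, mul_assoc, ← pow_succ]
  congr 2
  have := i.2
  omega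

end GoodAux

open GoodAux in
theorem good : GoodStmt := by
  intro q N hq
  rcases Nat.eq_zero_or_pos N with hN | hN
  · subst hN
    have h1 : univ.filter (fun v : Fin 0 → Fin q => Good q 0 v) = univ := by
      refine Finset.filter_true_of_mem fun v _ => Nat.zero_le _
    rw [h1]
    simp
  have hq0 : 0 < q := by omega
  set B := univ.filter (fun v : Fin N → Fin q => ¬ Good q N v) with hB
  -- double counting
  have h1 : B.card * (3 * N) ≤ ∑ v : Fin N → Fin q, 4 * (univ.filter (fun i => v i ∈ Sm q)).card := by
    rw [← smul_eq_mul, ← Finset.sum_const]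
    refine (Finset.sum_le_sum fun v hv => ?_).trans
      (Finset.sum_le_sum_of_subset (Finset.subset_univ B))
    have hv' := (Finset.mem_filter.mp hv).2
    unfold Good at hv'
    have h2 : (univ.filter (fun i => v i ∈ Sm q)).card +
        (univ.filter (fun i => (q : ℝ) / 2 ≤ |ctr q (v i)|)).card = N := by
      have h3 : univ.filter (fun i => (q : ℝ) / 2 ≤ |ctr q (v i)|) =
          univ.filter (fun i => ¬ v i ∈ Sm q) := by
        refine Finset.filter_congr fun i _ => ?_
        unfold Sm
        simp only [mem_filter, mem_univ, true_and, not_lt]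
      rw [h3, Finset.card_filter_add_card_filter_not, card_univ, Fintype.card_fin]
    omega
  have h2 : ∑ v : Fin N → Fin q, 4 * (univ.filter (fun i => v i ∈ Sm q)).card =
      4 * ∑ i : Fin N, (univ.filter (fun v : Fin N → Fin q => v i ∈ Sm q)).card := by
    rw [← Finset.mul_sum]
    congr 1
    simp only [Finset.card_filter]
    rw [Finset.sum_comm]
  have h3 : (∑ i : Fin N, (univ.filter (fun v : Fin N → Fin q => v i ∈ Sm q)).card) * q =
      N * ((Sm q).card * q ^ N) := by
    rw [Finset.sum_mul]
    simp only [card_coord]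
    rw [Finset.sum_const, card_univ, Fintype.card_fin, smul_eq_mul]
  have h4 := card_Sm q hq
  have h5 : 6 * B.card * (N * q) ≤ 5 * q ^ N * (N * q) := by
    calc 6 * B.card * (N * q) = 2 * (B.card * (3 * N)) * q := by ring
      _ ≤ 2 * (4 * ∑ i : Fin N, (univ.filter (fun v : Fin N → Fin q => v i ∈ Sm q)).card) * q := by
          rw [← h2]
          exact Nat.mul_le_mul_right _ (Nat.mul_le_mul_left _ h1)
      _ = 8 * ((∑ i : Fin N, (univ.filter (fun v : Fin N → Fin q => v i ∈ Sm q)).card) * q) := by
          ring
      _ = (8 * (Sm q).card) * (N * q ^ N) := by rw [h3]; ring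
      _ ≤ (5 * q) * (N * q ^ N) := Nat.mul_le_mul_right _ h4
      _ = 5 * q ^ N * (N * q) := by ring
  have h6 : 6 * B.card ≤ 5 * q ^ N := Nat.le_of_mul_le_mul_right h5 (by positivity)
  have h7 : (univ.filter (fun v : Fin N → Fin q => Good q N v)).card + B.card = q ^ N := by
    rw [hB, Finset.card_filter_add_card_filter_not, card_univ, Fintype.card_fun, Fintype.card_fin,
      Fintype.card_fin]
  have h8 : q ^ N ≤ 6 * (univ.filter (fun v : Fin N → Fin q => Good q N v)).card := by omega
  exact_mod_cast h8

end Pool.Agent.Lib.MP_cecf76_co.Grid
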