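import Pool.Agent.Lib.MP_cecf76_co.Grid.Stmts

set_option autoImplicit false

/-! G6: Hoeffding's inequality for Rademacher sums. -/

namespace Pool.Agent.Lib.MP_cecf76_co.Grid

open Finset Classical

theorem hoeff : HoeffStmt := by
  intro N a t V ht hV hsum
  set l : ℝ := t / V with hl
  have hl0 : 0 ≤ l := div_nonneg ht hV.le
  -- the exponential moment
  have h1 : ∑ s : Fin N → Bool, Real.exp (l * rad a s) =
      ∏ i, (Real.exp (l * a i) + Real.exp (-(l * a i))) := by
    have h2 : ∀ i : Fin N, Real.exp (l * a i) + Real.exp (-(l * a i)) =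
        ∑ b : Bool, Real.exp (l * (sg b * a i)) := by
      intro i
      simp [sg]
    simp only [h2]
    rw [Finset.prod_univ_sum, Fintype.piFinset_univ]
    refine Finset.sum_congr rfl fun s _ => ?_
    rw [← Real.exp_sum]
    congr 1
    unfold rad
    rw [Finset.mul_sum]
  have h2 : ∏ i, (Real.exp (l * a i) + Real.exp (-(l * a i))) ≤
      ∏ i : Fin N, (2 * Real.exp ((l * a i) ^ 2 / 2)) := by
    refine Finset.prod_le_prod (fun i _ => by positivity) fun i _ => ?_
    have := Real.cosh_le_exp_half_sq (l * a i)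
    rw [Real.cosh_eq] at this
    linarith
  have h3 : ∏ i : Fin N, (2 * Real.exp ((l * a i) ^ 2 / 2)) =
      2 ^ N * Real.exp (l ^ 2 * (∑ i, a i ^ 2) / 2) := by
    rw [Finset.prod_mul_distrib, Finset.prod_const, Finset.card_univ, Fintype.card_fin,
      ← Real.exp_sum]
    congr 2
    rw [Finset.mul_sum, Finset.sum_div]
    refine Finset.sum_congr rfl fun i _ => ?_
    ring
  have h4 : Real.exp (l ^ 2 * (∑ i, a i ^ 2) / 2) ≤ Real.exp (l ^ 2 * V / 2) := by
    refine Real.exp_le_exp.mpr ?_
    have := mul_le_mul_of_nonneg_left hsum (sq_nonneg l)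
    linarith
  have h5 : ((univ.filter (fun s : Fin N → Bool => t ≤ rad a s)).card : ℝ) * Real.exp (l * t) ≤
      ∑ s : Fin N → Bool, Real.exp (l * rad a s) := by
    rw [← nsmul_eq_mul, ← Finset.sum_const]
    refine (Finset.sum_le_sum fun s hs => ?_).trans
      (Finset.sum_le_sum_of_subset_of_nonneg (Finset.filter_subset _ _) fun s _ _ =>
        (Real.exp_pos _).le)
    exact Real.exp_le_exp.mpr (mul_le_mul_of_nonneg_left (Finset.mem_filter.mp hs).2 hl0)
  have h6 : ((univ.filter (fun s : Fin N → Bool => t ≤ rad a s)).card : ℝ) * Real.exp (l * t) ≤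
      2 ^ N * Real.exp (l ^ 2 * V / 2) := by
    refine (h5.trans (h1.le.trans (h2.trans h3.le))).trans ?_
    exact mul_le_mul_of_nonneg_left h4 (by positivity)
  have h7 : Real.exp (l ^ 2 * V / 2) = Real.exp (-(t ^ 2 / (2 * V))) * Real.exp (l * t) := by
    rw [← Real.exp_add]
    congr 1
    rw [hl]
    field_simp
    ring
  rw [h7, ← mul_assoc] at h6
  exact le_of_mul_le_mul_right h6 (Real.exp_pos _)

end Pool.Agent.Lib.MP_cecf76_co.Grid
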