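import Pool.Agent.Lib.MP_cecf76_co.Grid.Stmts

set_option autoImplicit false

/-! G5: the Littlewood-Offord bound of Erdos. -/

namespace Pool.Agent.Lib.MP_cecf76_co.Grid

open Finset Classical

namespace LOAux

theorem central_le (k : ℕ) : (2 * k + 1) * k.centralBinom ^ 2 ≤ 16 ^ k := by
  induction k with
  | zero => simp
  | succ k ih =>
    have h1 := Nat.succ_mul_centralBinom_succ k
    have h2 : (k + 1) ^ 2 * ((2 * (k + 1) + 1) * (k + 1).centralBinom ^ 2) ≤
        (k + 1) ^ 2 * 16 ^ (k + 1) := by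
      calc (k + 1) ^ 2 * ((2 * (k + 1) + 1) * (k + 1).centralBinom ^ 2)
          = (2 * k + 3) * ((k + 1) * (k + 1).centralBinom) ^ 2 := by ring
        _ = (2 * k + 3) * (2 * (2 * k + 1) * k.centralBinom) ^ 2 := by rw [h1]
        _ = 4 * ((2 * k + 3) * (2 * k + 1)) * ((2 * k + 1) * k.centralBinom ^ 2) := by ring
        _ ≤ 4 * (4 * (k + 1) ^ 2) * 16 ^ k := by
            refine Nat.mul_le_mul (Nat.mul_le_mul_left 4 ?_) ih
            nlinarith
        _ = (k + 1) ^ 2 * 16 ^ (k + 1) := by ring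
    exact Nat.le_of_mul_le_mul_left h2 (by positivity)

theorem choose_half_le (K : ℕ) : K * (K.choose (K / 2)) ^ 2 ≤ 4 ^ K := by
  obtain ⟨k, hk | hk⟩ := Nat.even_or_odd' K
  · have h1 := central_le k
    have h2 : K / 2 = k := by omega
    rw [h2, hk, ← Nat.centralBinom_eq_two_mul_choose, pow_mul]
    norm_num
    nlinarith [Nat.zero_le (k.centralBinom ^ 2)]
  · have h1 := central_le (k + 1)
    have h2 : K / 2 = k := by omega
    have h3 : (k + 1).centralBinom = 2 * (2 * k + 1).choose k := by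
      rw [Nat.centralBinom_eq_two_mul_choose]
      have e : 2 * (k + 1) = (2 * k + 1) + 1 := by ring
      rw [e, Nat.choose_succ_succ, ← Nat.choose_symm_half k]
      ring
    rw [h2, hk]
    rw [h3] at h1
    have h4 : 4 * ((2 * k + 1) * ((2 * k + 1).choose k) ^ 2) ≤ 4 * 4 ^ (2 * k + 1) := by
      calc 4 * ((2 * k + 1) * ((2 * k + 1).choose k) ^ 2)
          ≤ (2 * (k + 1) + 1) * (2 * (2 * k + 1).choose k) ^ 2 := by
            nlinarith [Nat.zero_le (((2 * k + 1).choose k) ^ 2)]
        _ ≤ 16 ^ (k + 1) := h1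
        _ = 4 * 4 ^ (2 * k + 1) := by
            have : (16 : ℕ) = 4 ^ 2 := by norm_num
            rw [this, ← pow_mul]
            ring
    exact Nat.le_of_mul_le_mul_left h4 (by norm_num)

theorem choose_sqrt_le (K : ℕ) : ((K.choose (K / 2) : ℕ) : ℝ) * Real.sqrt K ≤ 2 ^ K := by
  have h1 : ((K : ℕ) : ℝ) * ((K.choose (K / 2) : ℕ) : ℝ) ^ 2 ≤ 4 ^ K := by
    exact_mod_cast choose_half_le K
  have h2 : (((K.choose (K / 2) : ℕ) : ℝ) * Real.sqrt K) ^ 2 ≤ (2 ^ K) ^ 2 := by
    rw [mul_pow, Real.sq_sqrt (Nat.cast_nonneg K), ← pow_mul, mul_comm K 2, pow_mul]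
    norm_num
    linarith
  exact le_of_sq_le_sq h2 (by positivity)
where
  le_of_sq_le_sq {a b : ℝ} (h : a ^ 2 ≤ b ^ 2) (hb : 0 ≤ b) : a ≤ b := abs_le_of_sq_le_sq' h hb |>.2

/-- The indices in `J` with positive term. -/
noncomputable def pos {N : ℕ} (a : Fin N → ℝ) (J : Finset (Fin N)) (s : Fin N → Bool) :
    Finset {i // i ∈ J} := univ.filter (fun i => 0 < sg (s i.1) * a i.1)

theorem sg_abs (b : Bool) (x : ℝ) : sg b * x = |x| ∨ sg b * x = -|x| := by
  cases b
  · simp only [sg, Bool.false_eq_true, if_false]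
    rcases le_total 0 x with h | h
    · right; rw [abs_of_nonneg h]; ring
    · left; rw [abs_of_nonpos h]; ring
  · simp only [sg, if_true]
    rcases le_total 0 x with h | h
    · left; rw [abs_of_nonneg h]; ring
    · right; rw [abs_of_nonpos h]; ring

theorem sg_pos {b : Bool} {x : ℝ} (hx : 1 ≤ |x|) (h : 0 < sg b * x) : sg b * x = |x| := by
  rcases sg_abs b x with h1 | h1
  · exact h1
  · rw [h1] at h; linarith

theorem sg_neg {b : Bool} {x : ℝ} (hx : 1 ≤ |x|) (h : ¬ 0 < sg b * x) : sg b * x = -|x| := by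
  rcases sg_abs b x with h1 | h1
  · rw [h1] at h; exact absurd (by linarith) h
  · exact h1

theorem sg_inj {b c : Bool} {x : ℝ} (hx : 1 ≤ |x|) (h : sg b * x = sg c * x) : b = c := by
  have hx0 : x ≠ 0 := by
    intro h0; rw [h0, abs_zero] at hx; linarith
  have h1 : sg b = sg c := mul_right_cancel₀ hx0 h
  cases b <;> cases c <;> simp [sg] at h1 ⊢ <;> norm_num at h1

theorem rad_gap {N : ℕ} (a : Fin N → ℝ) (J : Finset (Fin N)) (hJ : ∀ i ∈ J, 1 ≤ |a i|)
    (s t : Fin N → Bool) (hst : ∀ i, i ∉ J → s i = t i) (h : pos a J s ⊂ pos a J t) :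
    rad a s + 2 ≤ rad a t := by
  have h0 : ∀ i, 0 ≤ sg (t i) * a i - sg (s i) * a i := by
    intro i
    by_cases hi : i ∈ J
    · have hai := hJ i hi
      by_cases h1 : 0 < sg (s i) * a i
      · have h2 : (⟨i, hi⟩ : {i // i ∈ J}) ∈ pos a J s := by
          simp only [pos, mem_filter, mem_univ, true_and]; exact h1
        have h3 := h.subset h2
        simp only [pos, mem_filter, mem_univ, true_and] at h3
        rw [sg_pos hai h1, sg_pos hai h3, sub_self]
      · rw [sg_neg hai h1]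
        rcases sg_abs (t i) (a i) with h4 | h4 <;> rw [h4] <;> have := abs_nonneg (a i) <;> linarith
    · rw [hst i hi, sub_self]
  obtain ⟨i, hit, his⟩ := Finset.exists_of_ssubset h
  simp only [pos, mem_filter, mem_univ, true_and] at hit his
  have hai := hJ i.1 i.2
  have h1 : 2 ≤ sg (t i.1) * a i.1 - sg (s i.1) * a i.1 := by
    rw [sg_pos hai hit, sg_neg hai his]; linarith
  have h2 : sg (t i.1) * a i.1 - sg (s i.1) * a i.1 ≤
      ∑ j, (sg (t j) * a j - sg (s j) * a j) :=
    Finset.single_le_sum (f := fun j => sg (t j) * a j - sg (s j) * a j) (fun j _ => h0 j)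
      (Finset.mem_univ i.1)
  rw [Finset.sum_sub_distrib] at h2
  unfold rad
  linarith

theorem card_window {N : ℕ} (a : Fin N → ℝ) (J : Finset (Fin N)) (hJ : ∀ i ∈ J, 1 ≤ |a i|)
    (x : ℝ) : (univ.filter (fun s : Fin N → Bool => x ≤ rad a s ∧ rad a s < x + 2)).card ≤
      J.card.choose (J.card / 2) * 2 ^ (N - J.card) := by
  set S := univ.filter (fun s : Fin N → Bool => x ≤ rad a s ∧ rad a s < x + 2) with hS
  let f : (Fin N → Bool) → ({i // i ∉ J} → Bool) := fun s i => s i.1
  have hcard : Fintype.card {i // i ∈ J} = J.card := Fintype.card_coe J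
  have h1 : ∀ b ∈ S.image f, (S.filter (fun s => f s = b)).card ≤
      J.card.choose (J.card / 2) := by
    intro b _
    have hf : ∀ s ∈ S.filter (fun s => f s = b), ∀ t ∈ S.filter (fun s => f s = b),
        ∀ i, i ∉ J → s i = t i := by
      intro s hs t ht i hi
      rw [mem_filter] at hs ht
      have := congrFun (hs.2.trans ht.2.symm) ⟨i, hi⟩
      exact this
    have hinj : Set.InjOn (pos a J) (S.filter (fun s => f s = b)) := by
      intro s hs t ht hst
      funext i
      by_cases hi : i ∈ J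
      · have hai := hJ i hi
        have h2 : (⟨i, hi⟩ : {i // i ∈ J}) ∈ pos a J s ↔ (⟨i, hi⟩ : {i // i ∈ J}) ∈ pos a J t := by
          rw [hst]
        simp only [pos, mem_filter, mem_univ, true_and] at h2
        by_cases h3 : 0 < sg (s i) * a i
        · exact sg_inj hai ((sg_pos hai h3).trans (sg_pos hai (h2.mp h3)).symm)
        · exact sg_inj hai ((sg_neg hai h3).trans (sg_neg hai (fun h => h3 (h2.mpr h))).symm)
      · exact hf s hs t ht i hi
    rw [← Finset.card_image_of_injOn hinj]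
    have hanti : IsAntichain (· ⊆ ·)
        (((S.filter (fun s => f s = b)).image (pos a J) : Finset (Finset {i // i ∈ J})) :
          Set (Finset {i // i ∈ J})) := by
      intro p hp q hq hpq hsub
      rw [Finset.mem_coe, Finset.mem_image] at hp hq
      obtain ⟨s, hs, rfl⟩ := hp
      obtain ⟨t, ht, rfl⟩ := hq
      have h2 := rad_gap a J hJ s t (hf s hs t ht) (Finset.ssubset_iff_subset_ne.mpr ⟨hsub, hpq⟩)
      have hs' := (mem_filter.mp (mem_filter.mp hs).1).2
      have ht' := (mem_filter.mp (mem_filter.mp ht).1).2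
      linarith [hs'.1, ht'.2]
    have h2 := hanti.sperner
    rw [hcard] at h2
    exact h2
  have h2 := Finset.card_le_mul_card_image S _ h1
  refine h2.trans (Nat.mul_le_mul_left _ ?_)
  refine (Finset.card_le_univ _).trans (le_of_eq ?_)
  rw [Fintype.card_fun, Fintype.card_bool]
  congr 1
  rw [Fintype.card_subtype_compl, Fintype.card_fin, hcard]

end LOAux

open LOAux in
theorem lo : LOStmt := by
  intro N K a R hK hR hcard
  obtain ⟨J, hJs, hJc⟩ := Finset.exists_subset_card_eq hcard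
  have hJ : ∀ i ∈ J, 1 ≤ |a i| := fun i hi => (mem_filter.mp (hJs hi)).2
  have hKN : K ≤ N := by
    rw [← hJc]
    exact (Finset.card_le_univ J).trans (by rw [Fintype.card_fin])
  have h1 : (univ.filter (fun s : Fin N → Bool => |rad a s| < R)).card ≤
      ⌈R⌉₊ * (K.choose (K / 2) * 2 ^ (N - K)) := by
    have hsub : univ.filter (fun s : Fin N → Bool => |rad a s| < R) ⊆
        (Finset.range ⌈R⌉₊).biUnion (fun j => univ.filter (fun s : Fin N → Bool =>
          (-R + 2 * j) ≤ rad a s ∧ rad a s < (-R + 2 * j) + 2)) := by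
      intro s hs
      rw [mem_filter] at hs
      obtain ⟨h2, h3⟩ := abs_lt.mp hs.2
      rw [Finset.mem_biUnion]
      have h4 : 0 ≤ (rad a s + R) / 2 := by linarith
      have h5 := Nat.floor_le h4
      have h6 := Nat.lt_floor_add_one ((rad a s + R) / 2)
      refine ⟨⌊(rad a s + R) / 2⌋₊, ?_, ?_⟩
      · rw [Finset.mem_range]
        have h7 : ((⌊(rad a s + R) / 2⌋₊ : ℕ) : ℝ) < R := by linarith
        exact Nat.lt_ceil.mpr h7
      · rw [mem_filter]
        exact ⟨mem_univ _, by linarith, by linarith⟩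
    calc _ ≤ _ := Finset.card_le_card hsub
      _ ≤ ∑ j ∈ Finset.range ⌈R⌉₊, _ := Finset.card_biUnion_le
      _ ≤ ∑ j ∈ Finset.range ⌈R⌉₊, K.choose (K / 2) * 2 ^ (N - K) := by
          refine Finset.sum_le_sum fun j _ => ?_
          have := card_window a J hJ (-R + 2 * (j : ℝ))
          rwa [hJc] at this
      _ = _ := by rw [Finset.sum_const, Finset.card_range, smul_eq_mul]
  have h2 : ((univ.filter (fun s : Fin N → Bool => |rad a s| < R)).card : ℝ) ≤
      (R + 1) * (((K.choose (K / 2) : ℕ) : ℝ) * 2 ^ (N - K)) := by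
    calc ((univ.filter (fun s : Fin N → Bool => |rad a s| < R)).card : ℝ)
        ≤ ((⌈R⌉₊ * (K.choose (K / 2) * 2 ^ (N - K)) : ℕ) : ℝ) := by exact_mod_cast h1
      _ = (⌈R⌉₊ : ℝ) * (((K.choose (K / 2) : ℕ) : ℝ) * 2 ^ (N - K)) := by push_cast; ring
      _ ≤ _ := by
          refine mul_le_mul_of_nonneg_right ?_ (by positivity)
          exact (Nat.ceil_lt_add_one hR).le
  calc ((univ.filter (fun s : Fin N → Bool => |rad a s| < R)).card : ℝ) * Real.sqrt K
      ≤ (R + 1) * (((K.choose (K / 2) : ℕ) : ℝ) * 2 ^ (N - K)) * Real.sqrt K :=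
        mul_le_mul_of_nonneg_right h2 (Real.sqrt_nonneg _)
    _ = (R + 1) * ((((K.choose (K / 2) : ℕ) : ℝ) * Real.sqrt K) * 2 ^ (N - K)) := by ring
    _ ≤ (R + 1) * (2 ^ K * 2 ^ (N - K)) := by
        refine mul_le_mul_of_nonneg_left ?_ (by linarith)
        exact mul_le_mul_of_nonneg_right (choose_sqrt_le K) (by positivity)
    _ = (R + 1) * 2 ^ N := by
        rw [← pow_add]
        congr 2
        omega

end Pool.Agent.Lib.MP_cecf76_co.Grid
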