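import Pool.Agent.Lib.MP_cecf76_co.Grid.Stmts

set_option autoImplicit false

/-! G1: the one-dimensional discrete Prekopa-Leindler inequality, by transport and entropy. -/

namespace Pool.Agent.Lib.MP_cecf76_co.Grid

open Finset

theorem clamp_id {a b c d : ℝ} (hab : a ≤ b) (hcd : c ≤ d) :
    max 0 (min b d - max a c) = min (max d a) b - min (max c a) b := by
  simp only [min_def, max_def]
  split_ifs <;> linarith

/-- Gibbs variational inequality. -/
theorem gibbs {q : ℕ} (hq : 0 < q) (μ : Fin q → ℝ) (h0 : ∀ x, 0 ≤ μ x) (h1 : ∑ x, μ x = 1)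
    (h : Fin q → ℝ) :
    ∑ x, μ x * h x ≤ ∑ x, μ x * Real.log (μ x) + Real.log (∑ x, Real.exp (h x)) := by
  have hne : Nonempty (Fin q) := ⟨⟨0, hq⟩⟩
  obtain ⟨Z, hZ⟩ : ∃ Z, Z = ∑ x, Real.exp (h x) := ⟨_, rfl⟩
  have hZ0 : 0 < Z := by rw [hZ]; exact Finset.sum_pos (fun x _ => Real.exp_pos _) univ_nonempty
  rw [← hZ]
  have key : ∀ x, μ x * h x - μ x * Real.log (μ x) - μ x * Real.log Z ≤
      Real.exp (h x) / Z - μ x := by
    intro x
    rcases (h0 x).eq_or_lt with h2 | h2
    · rw [← h2]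
      have : 0 ≤ Real.exp (h x) / Z := by positivity
      simpa using this
    · have h3 : 0 < Real.exp (h x) / (Z * μ x) := by positivity
      have h4 := Real.log_le_sub_one_of_pos h3
      rw [Real.log_div (Real.exp_pos _).ne' (by positivity), Real.log_exp,
        Real.log_mul hZ0.ne' h2.ne'] at h4
      have h5 := mul_le_mul_of_nonneg_left h4 h2.le
      have h6 : μ x * (Real.exp (h x) / (Z * μ x) - 1) = Real.exp (h x) / Z - μ x := by
        field_simp
      rw [h6] at h5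
      linarith
  have hs := Finset.sum_le_sum (fun x (_ : x ∈ (univ : Finset (Fin q))) => key x)
  rw [Finset.sum_sub_distrib, Finset.sum_sub_distrib, Finset.sum_sub_distrib, ← Finset.sum_mul, h1,
    ← Finset.sum_div, ← hZ, div_self hZ0.ne'] at hs
  linarith

/-- Partial sums. -/
noncomputable def psum {q : ℕ} (u : Fin q → ℝ) (k : ℕ) : ℝ := ∑ x, if x.val < k then u x else 0

theorem psum_zero {q : ℕ} (u : Fin q → ℝ) : psum u 0 = 0 := by
  simp [psum]

theorem psum_full {q : ℕ} (u : Fin q → ℝ) : psum u q = ∑ x, u x := by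
  unfold psum
  exact Finset.sum_congr rfl (fun x _ => if_pos x.2)

theorem psum_succ {q : ℕ} (u : Fin q → ℝ) (x : Fin q) :
    psum u (x.val + 1) = psum u x.val + u x := by
  unfold psum
  have h : ∀ y : Fin q, (if y.val < x.val + 1 then u y else 0) =
      (if y.val < x.val then u y else 0) + (if x = y then u y else 0) := by
    intro y
    by_cases h1 : y.val < x.val
    · have h2 : x ≠ y := fun h => by rw [h] at h1; exact lt_irrefl _ h1
      rw [if_pos h1, if_pos (by omega), if_neg h2, add_zero]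
    · by_cases h2 : x = y
      · subst h2
        rw [if_pos (by omega), if_neg h1, if_pos rfl, zero_add]
      · have h3 : ¬ y.val < x.val + 1 := by
          intro h3
          exact h2 (Fin.ext (by omega))
        rw [if_neg h3, if_neg h1, if_neg h2, add_zero]
  rw [Finset.sum_congr rfl (fun y _ => h y), Finset.sum_add_distrib, Finset.sum_ite_eq]
  simp

theorem psum_one {q : ℕ} (k : ℕ) (hk : k ≤ q) : psum (fun _ : Fin q => (1 : ℝ)) k = k := by
  induction k with
  | zero => simp [psum_zero]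
  | succ k ih =>
    have h := psum_succ (fun _ : Fin q => (1 : ℝ)) ⟨k, hk⟩
    simp only at h
    rw [h, ih (by omega)]
    push_cast
    ring

theorem psum_mono {q : ℕ} {u : Fin q → ℝ} (hu : ∀ x, 0 ≤ u x) {k l : ℕ} (h : k ≤ l) :
    psum u k ≤ psum u l := by
  unfold psum
  refine Finset.sum_le_sum (fun x _ => ?_)
  by_cases h1 : x.val < k
  · rw [if_pos h1, if_pos (by omega)]
  · rw [if_neg h1]
    split_ifs
    · exact hu x
    · exact le_rfl

theorem exp_mul_le {t z : ℝ} (h1 : -1 ≤ z) (h2 : z ≤ 1) :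
    Real.exp (t * z) ≤ Real.cosh t + z * Real.sinh t := by
  have h := convexOn_exp.2 (Set.mem_univ t) (Set.mem_univ (-t))
    (show 0 ≤ (1 + z) / 2 by linarith) (show 0 ≤ (1 - z) / 2 by linarith) (by ring)
  simp only [smul_eq_mul] at h
  have e1 : (1 + z) / 2 * t + (1 - z) / 2 * -t = t * z := by ring
  rw [e1] at h
  rw [Real.cosh_eq, Real.sinh_eq]
  linarith

/-- Entropy bound for the distribution function. -/
theorem pinsker {q : ℕ} (hq : 0 < q) (μ : Fin q → ℝ) (h0 : ∀ x, 0 ≤ μ x) (h1 : ∑ x, μ x = 1)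
    (k : ℕ) (hk : k ≤ q) :
    (psum μ k - k / q) ^ 2 ≤ 2 * (∑ x, μ x * Real.log (μ x) + Real.log q) := by
  have hqR : (0 : ℝ) < q := by exact_mod_cast hq
  obtain ⟨t, ht⟩ : ∃ t : ℝ, t = psum μ k - k / q := ⟨_, rfl⟩
  obtain ⟨z, hz⟩ : ∃ z : Fin q → ℝ, z = fun x => (if x.val < k then (1 : ℝ) else 0) - k / q :=
    ⟨_, rfl⟩
  have hkq0 : 0 ≤ (k : ℝ) / q := by positivity
  have hkq1 : (k : ℝ) / q ≤ 1 := by
    rw [div_le_one hqR]; exact_mod_cast hk
  have hz1 : ∀ x, -1 ≤ z x := by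
    intro x; rw [hz]; simp only; split_ifs <;> linarith
  have hz2 : ∀ x, z x ≤ 1 := by
    intro x; rw [hz]; simp only; split_ifs <;> linarith
  have hzs : ∑ x, z x = 0 := by
    rw [hz]
    simp only [Finset.sum_sub_distrib]
    have h2 : ∑ x : Fin q, (if x.val < k then (1 : ℝ) else 0) = k := psum_one k hk
    rw [h2, Finset.sum_const, Finset.card_univ, Fintype.card_fin, nsmul_eq_mul]
    field_simp
    ring
  have hg := gibbs hq μ h0 h1 (fun x => t * z x)
  have hl : ∑ x, μ x * (t * z x) = t ^ 2 := by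
    have h2 : ∑ x, μ x * z x = t := by
      rw [hz, ht]
      simp only [mul_sub, Finset.sum_sub_distrib, ← Finset.sum_mul, h1, one_mul]
      congr 1
      unfold psum
      refine Finset.sum_congr rfl (fun x _ => ?_)
      split_ifs <;> simp
    have h3 : ∑ x, μ x * (t * z x) = t * ∑ x, μ x * z x := by
      rw [Finset.mul_sum]
      exact Finset.sum_congr rfl (fun x _ => by ring)
    rw [h3, h2]; ring
  have hr : ∑ x, Real.exp (t * z x) ≤ q * Real.exp (t ^ 2 / 2) := by
    calc ∑ x, Real.exp (t * z x) ≤ ∑ x, (Real.cosh t + z x * Real.sinh t) :=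
          Finset.sum_le_sum (fun x _ => exp_mul_le (hz1 x) (hz2 x))
      _ = q * Real.cosh t := by
          rw [Finset.sum_add_distrib, ← Finset.sum_mul, hzs, zero_mul, add_zero, Finset.sum_const,
            Finset.card_univ, Fintype.card_fin, nsmul_eq_mul]
      _ ≤ q * Real.exp (t ^ 2 / 2) :=
          mul_le_mul_of_nonneg_left (Real.cosh_le_exp_half_sq t) hqR.le
  have hne : Nonempty (Fin q) := ⟨⟨0, hq⟩⟩
  have hlog : Real.log (∑ x, Real.exp (t * z x)) ≤ Real.log q + t ^ 2 / 2 := by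
    have h2 := Real.log_le_log
      (Finset.sum_pos (fun x _ => Real.exp_pos (t * z x)) univ_nonempty) hr
    rw [Real.log_mul hqR.ne' (Real.exp_pos _).ne', Real.log_exp] at h2
    exact h2
  rw [hl] at hg
  rw [← ht]
  linarith

/-- The monotone coupling. -/
noncomputable def cpl (M N : ℕ → ℝ) (x y : ℕ) : ℝ :=
  max 0 (min (M (x + 1)) (N (y + 1)) - max (M x) (N y))

theorem cpl_sum {q : ℕ} {M N : ℕ → ℝ} (hM : ∀ x, M x ≤ M (x + 1)) (hN : ∀ x, N x ≤ N (x + 1))
    (x : ℕ) (h0 : N 0 ≤ M x) (h1 : M (x + 1) ≤ N q) :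
    ∑ y : Fin q, cpl M N x y.val = M (x + 1) - M x := by
  have h : ∀ y : ℕ, cpl M N x y =
      min (max (N (y + 1)) (M x)) (M (x + 1)) - min (max (N y) (M x)) (M (x + 1)) :=
    fun y => clamp_id (hM x) (hN y)
  rw [Fin.sum_univ_eq_sum_range (fun y => cpl M N x y) q, Finset.sum_congr rfl (fun y _ => h y),
    Finset.sum_range_sub (fun y => min (max (N y) (M x)) (M (x + 1)))]
  have h2 := hM x
  rw [max_eq_left (h2.trans h1), min_eq_right h1, max_eq_right h0, min_eq_left h2]

theorem cpl_comm (M N : ℕ → ℝ) (x y : ℕ) : cpl M N x y = cpl N M y x := by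
  unfold cpl
  rw [min_comm, max_comm (M x)]

theorem oneDim : OneDimStmt := by
  intro q f g hq hf hg hfg
  have hqR : (0 : ℝ) < q := by exact_mod_cast hq
  obtain ⟨F, hF⟩ : ∃ F, F = ∑ x, f x := ⟨_, rfl⟩
  obtain ⟨G, hG⟩ : ∃ G, G = ∑ x, g x := ⟨_, rfl⟩
  rw [← hF, ← hG]
  have hF0 : 0 ≤ F := by rw [hF]; exact Finset.sum_nonneg (fun x _ => hf x)
  have hG0 : 0 ≤ G := by rw [hG]; exact Finset.sum_nonneg (fun x _ => hg x)
  rcases hF0.eq_or_lt with h | hF0
  · rw [← h, zero_mul]; positivity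
  rcases hG0.eq_or_lt with h | hG0
  · rw [← h, mul_zero]; positivity
  obtain ⟨μ, hμ⟩ : ∃ μ : Fin q → ℝ, ∀ x, μ x = f x / F := ⟨fun x => f x / F, fun _ => rfl⟩
  obtain ⟨ν, hν⟩ : ∃ ν : Fin q → ℝ, ∀ x, ν x = g x / G := ⟨fun x => g x / G, fun _ => rfl⟩
  have hμ0 : ∀ x, 0 ≤ μ x := fun x => by rw [hμ]; exact div_nonneg (hf x) hF0.le
  have hν0 : ∀ x, 0 ≤ ν x := fun x => by rw [hν]; exact div_nonneg (hg x) hG0.le
  have hμ1 : ∑ x, μ x = 1 := by
    rw [Finset.sum_congr rfl (fun x _ => hμ x), ← Finset.sum_div, ← hF, div_self hF0.ne']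
  have hν1 : ∑ x, ν x = 1 := by
    rw [Finset.sum_congr rfl (fun x _ => hν x), ← Finset.sum_div, ← hG, div_self hG0.ne']
  obtain ⟨Sμ, hSμ⟩ : ∃ S, S = ∑ x, μ x * Real.log (μ x) := ⟨_, rfl⟩
  obtain ⟨Sν, hSν⟩ : ∃ S, S = ∑ x, ν x * Real.log (ν x) := ⟨_, rfl⟩
  obtain ⟨Hμ, hHμ⟩ : ∃ H, H = Sμ + Real.log q := ⟨_, rfl⟩
  obtain ⟨Hν, hHν⟩ : ∃ H, H = Sν + Real.log q := ⟨_, rfl⟩
  have pμ : ∀ k ≤ q, (psum μ k - k / q) ^ 2 ≤ 2 * Hμ := by
    intro k hk
    rw [hHμ, hSμ]; exact pinsker hq μ hμ0 hμ1 k hk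
  have pν : ∀ k ≤ q, (psum ν k - k / q) ^ 2 ≤ 2 * Hν := by
    intro k hk
    rw [hHν, hSν]; exact pinsker hq ν hν0 hν1 k hk
  have hHμ0 : 0 ≤ 2 * Hμ := le_trans (sq_nonneg _) (pμ 0 (Nat.zero_le _))
  have hHν0 : 0 ≤ 2 * Hν := le_trans (sq_nonneg _) (pν 0 (Nat.zero_le _))
  obtain ⟨D, hD⟩ : ∃ D, D = Real.sqrt (2 * Hμ) := ⟨_, rfl⟩
  obtain ⟨D', hD'⟩ : ∃ D, D = Real.sqrt (2 * Hν) := ⟨_, rfl⟩
  have hD0 : 0 ≤ D := by rw [hD]; exact Real.sqrt_nonneg _
  have hD0' : 0 ≤ D' := by rw [hD']; exact Real.sqrt_nonneg _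
  have hDsq : D ^ 2 = 2 * Hμ := by rw [hD]; exact Real.sq_sqrt hHμ0
  have hDsq' : D' ^ 2 = 2 * Hν := by rw [hD']; exact Real.sq_sqrt hHν0
  have aμ : ∀ k ≤ q, |psum μ k - k / q| ≤ D := by
    intro k hk
    rw [hD]
    exact Real.abs_le_sqrt (pμ k hk)
  have aν : ∀ k ≤ q, |psum ν k - k / q| ≤ D' := by
    intro k hk
    rw [hD']
    exact Real.abs_le_sqrt (pν k hk)
  obtain ⟨P, hP⟩ : ∃ P : Fin q → Fin q → ℝ, ∀ x y, P x y = cpl (psum μ) (psum ν) x.val y.val :=
    ⟨fun x y => cpl (psum μ) (psum ν) x.val y.val, fun _ _ => rfl⟩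
  have hP0 : ∀ x y, 0 ≤ P x y := fun x y => by rw [hP]; exact le_max_left _ _
  have mμ : ∀ x, psum μ x ≤ psum μ (x + 1) := fun x => psum_mono hμ0 (Nat.le_succ x)
  have mν : ∀ x, psum ν x ≤ psum ν (x + 1) := fun x => psum_mono hν0 (Nat.le_succ x)
  have hPx : ∀ x, ∑ y, P x y = μ x := by
    intro x
    rw [Finset.sum_congr rfl (fun y _ => hP x y), cpl_sum mμ mν]
    · rw [psum_succ]; ring
    · rw [psum_zero, ← psum_zero μ]; exact psum_mono hμ0 (Nat.zero_le _)
    · rw [psum_full, hν1, ← hμ1, ← psum_full μ]; exact psum_mono hμ0 x.2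
  have hPy : ∀ y, ∑ x, P x y = ν y := by
    intro y
    rw [Finset.sum_congr rfl (fun x _ => (hP x y).trans (cpl_comm _ _ _ _)), cpl_sum mν mμ]
    · rw [psum_succ]; ring
    · rw [psum_zero, ← psum_zero ν]; exact psum_mono hν0 (Nat.zero_le _)
    · rw [psum_full, hμ1, ← hν1, ← psum_full ν]; exact psum_mono hν0 y.2
  -- the pointwise bound
  have key : ∀ x y, P x y * (Real.log (f x) + Real.log (g y)) ≤ P x y * (Hμ + Hν) := by
    intro x y
    rcases (hP0 x y).eq_or_lt with h | h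
    · rw [← h, zero_mul, zero_mul]
    · have hμx : 0 < μ x := lt_of_lt_of_le h (by
        rw [← hPx x]
        exact Finset.single_le_sum (fun y _ => hP0 x y) (mem_univ y))
      have hνy : 0 < ν y := lt_of_lt_of_le h (by
        rw [← hPy y]
        exact Finset.single_le_sum (f := fun x => P x y) (fun x _ => hP0 x y) (mem_univ x))
      have hfx : 0 < f x := by
        rcases (hf x).eq_or_lt with h2 | h2
        · rw [hμ, ← h2, zero_div] at hμx; exact absurd hμx (lt_irrefl _)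
        · exact h2
      have hgy : 0 < g y := by
        rcases (hg y).eq_or_lt with h2 | h2
        · rw [hν, ← h2, zero_div] at hνy; exact absurd hνy (lt_irrefl _)
        · exact h2
      refine mul_le_mul_of_nonneg_left ?_ (hP0 x y)
      rw [← Real.log_mul hfx.ne' hgy.ne']
      have h3 : Real.log (f x * g y) ≤ cost q x y := by
        rw [Real.log_le_iff_le_exp (mul_pos hfx hgy)]
        exact hfg x y
      refine h3.trans ?_
      have hpos : 0 < min (psum μ (x.val + 1)) (psum ν (y.val + 1)) - max (psum μ x.val)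
          (psum ν y.val) := by
        rw [hP] at h
        unfold cpl at h
        rcases lt_max_iff.mp h with h4 | h4
        · exact absurd h4 (lt_irrefl _)
        · exact h4
      have h5 : psum μ x.val < psum ν (y.val + 1) := by
        have := min_le_right (psum μ (x.val + 1)) (psum ν (y.val + 1))
        have := le_max_left (psum μ x.val) (psum ν y.val)
        linarith
      have h6 : psum ν y.val < psum μ (x.val + 1) := by
        have := min_le_left (psum μ (x.val + 1)) (psum ν (y.val + 1))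
        have := le_max_right (psum μ x.val) (psum ν y.val)
        linarith
      have b1 := abs_le.mp (aμ x.val x.2.le)
      have b2 := abs_le.mp (aμ (x.val + 1) x.2)
      have b3 := abs_le.mp (aν y.val y.2.le)
      have b4 := abs_le.mp (aν (y.val + 1) y.2)
      push_cast at b1 b2 b3 b4
      have h7 : (x.val : ℝ) - y.val - 1 ≤ q * (D + D') := by
        have : (x.val : ℝ) / q - (y.val + 1) / q ≤ D + D' := by linarith [b1.1, b4.2]
        rw [← sub_div, div_le_iff₀ hqR] at this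
        linarith
      have h8 : (y.val : ℝ) - x.val - 1 ≤ q * (D + D') := by
        have : (y.val : ℝ) / q - (x.val + 1) / q ≤ D + D' := by linarith [b3.1, b2.2]
        rw [← sub_div, div_le_iff₀ hqR] at this
        linarith
      have h9 : max (|(x.val : ℝ) - (y.val : ℝ)| - 1) 0 ≤ q * (D + D') := by
        refine max_le ?_ (by positivity)
        have : |(x.val : ℝ) - (y.val : ℝ)| ≤ q * (D + D') + 1 := by
          rw [abs_le]; constructor <;> linarith
        linarith
      have h10 : max (|(x.val : ℝ) - (y.val : ℝ)| - 1) 0 / q ≤ D + D' := by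
        rw [div_le_iff₀ hqR]; linarith
      have h11 : 0 ≤ max (|(x.val : ℝ) - (y.val : ℝ)| - 1) 0 / q := by positivity
      have h12 : (max (|(x.val : ℝ) - (y.val : ℝ)| - 1) 0 / q) ^ 2 ≤ (D + D') ^ 2 :=
        pow_le_pow_left₀ h11 h10 2
      unfold cost
      nlinarith [sq_nonneg (D - D')]
  -- sums
  have hsum : ∑ x, ∑ y, P x y * (Real.log (f x) + Real.log (g y)) ≤ Hμ + Hν := by
    calc ∑ x, ∑ y, P x y * (Real.log (f x) + Real.log (g y))
        ≤ ∑ x, ∑ y, P x y * (Hμ + Hν) :=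
          Finset.sum_le_sum (fun x _ => Finset.sum_le_sum (fun y _ => key x y))
      _ = Hμ + Hν := by
          simp only [← Finset.sum_mul, hPx, hμ1, one_mul]
  have hlhs : ∑ x, ∑ y, P x y * (Real.log (f x) + Real.log (g y)) =
      ∑ x, μ x * Real.log (f x) + ∑ y, ν y * Real.log (g y) := by
    simp only [mul_add, Finset.sum_add_distrib]
    congr 1
    · exact Finset.sum_congr rfl (fun x _ => by rw [← Finset.sum_mul, hPx])
    · rw [Finset.sum_comm]
      exact Finset.sum_congr rfl (fun y _ => by rw [← Finset.sum_mul, hPy])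
  have hent : ∀ (u a : Fin q → ℝ) (A : ℝ), 0 < A → (∀ x, u x = a x / A) → (∀ x, 0 ≤ a x) →
      ∑ x, u x = 1 → ∑ x, u x * Real.log (a x) = ∑ x, u x * Real.log (u x) + Real.log A := by
    intro u a A hA hu ha hu1
    have h2 : ∀ x, u x * Real.log (a x) = u x * Real.log (u x) + u x * Real.log A := by
      intro x
      rcases (ha x).eq_or_lt with h3 | h3
      · have : u x = 0 := by rw [hu, ← h3, zero_div]
        rw [this]; ring
      · rw [hu x, Real.log_div h3.ne' hA.ne']; ring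
    rw [Finset.sum_congr rfl (fun x _ => h2 x), Finset.sum_add_distrib, ← Finset.sum_mul, hu1,
      one_mul]
  rw [hlhs, hent μ f F hF0 hμ hf hμ1, hent ν g G hG0 hν hg hν1, ← hSμ, ← hSν] at hsum
  have hfin : Real.log (F * G) ≤ Real.log ((q : ℝ) ^ 2) := by
    rw [Real.log_mul hF0.ne' hG0.ne', Real.log_pow]
    push_cast
    linarith
  exact (Real.log_le_log_iff (mul_pos hF0 hG0) (by positivity)).mp hfin

end Pool.Agent.Lib.MP_cecf76_co.Grid
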