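import Pool.Agent.Lib.MP_cecf76_co.Grid.Stmts

set_option autoImplicit false

/-! G8: sampling `n` points of a finite probability space. -/

namespace Pool.Agent.Lib.MP_cecf76_co.Grid

open Finset Classical

namespace SampAux

variable {Ω : Type} [Fintype Ω]

lemma mom (A : Finset Ω) (n : ℕ) (t : ℝ) :
    ∑ s : Fin n → Ω, Real.exp (t * ((univ.filter (fun i => s i ∈ A)).card : ℝ)) =
      ((Fintype.card Ω : ℝ) + A.card * (Real.exp t - 1)) ^ n := by
  have h1 : (Fintype.card Ω : ℝ) + A.card * (Real.exp t - 1) =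
      ∑ w : Ω, if w ∈ A then Real.exp t else 1 := by
    have h2 : ∀ w : Ω, (if w ∈ A then Real.exp t else 1) =
        1 + if w ∈ A then Real.exp t - 1 else 0 := by
      intro w
      split_ifs <;> ring
    simp only [h2]
    rw [Finset.sum_add_distrib, Finset.sum_const, card_univ, nsmul_eq_mul, mul_one,
      Finset.sum_ite_mem, univ_inter, Finset.sum_const, nsmul_eq_mul]
  rw [h1, Fintype.sum_pow]
  refine Finset.sum_congr rfl fun s _ => ?_
  rw [Finset.prod_ite, prod_const, prod_const_one, mul_one, ← Real.exp_nat_mul, mul_comm]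

/-- few samples see `A` rarely -/
lemma low [Nonempty Ω] (A : Finset Ω) (n : ℕ) (c c' : ℝ) (hc : 0 ≤ c) (hcc : c < c')
    (hc1 : c' ≤ 1) (hA : c' * Fintype.card Ω ≤ (A.card : ℝ)) :
    ((univ.filter (fun s : Fin n → Ω =>
      ((univ.filter (fun i => s i ∈ A)).card : ℝ) ≤ c * n)).card : ℝ) ≤
      (Fintype.card Ω : ℝ) ^ n * Real.exp (-((c' - c) ^ 2 * n / 2)) := by
  set t : ℝ := c' - c with ht
  have ht0 : 0 < t := sub_pos.mpr hcc
  have hM : (0 : ℝ) < Fintype.card Ω := by exact_mod_cast Fintype.card_pos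
  set M : ℝ := ((Fintype.card Ω : ℕ) : ℝ) with hMdef
  have h1 : ((univ.filter (fun s : Fin n → Ω =>
      ((univ.filter (fun i => s i ∈ A)).card : ℝ) ≤ c * n)).card : ℝ) * Real.exp (-t * (c * n)) ≤
      (M + A.card * (Real.exp (-t) - 1)) ^ n := by
    rw [← mom A n (-t), ← nsmul_eq_mul, ← Finset.sum_const]
    refine (Finset.sum_le_sum fun s hs => ?_).trans
      (Finset.sum_le_sum_of_subset_of_nonneg (Finset.filter_subset _ _) fun s _ _ =>
        (Real.exp_pos _).le)
    refine Real.exp_le_exp.mpr ?_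
    have := (Finset.mem_filter.mp hs).2
    nlinarith
  have hexp : Real.exp (-t) ≤ 1 - t + t ^ 2 / 2 := by
    have h2 : (1 + t + t ^ 2 / 2) ≤ Real.exp t := by
      have := Real.quadratic_le_exp_of_nonneg ht0.le
      linarith
    have h3 : (1 - t + t ^ 2 / 2) * Real.exp t ≥ 1 := by
      have h4 : 0 ≤ 1 - t + t ^ 2 / 2 := by nlinarith [sq_nonneg (t - 1)]
      nlinarith [mul_le_mul_of_nonneg_left h2 h4, sq_nonneg (t ^ 2)]
    rw [Real.exp_neg, inv_le_iff_one_le_mul₀ (Real.exp_pos t)]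
    linarith
  have hle1 : Real.exp (-t) ≤ 1 := Real.exp_le_one_iff.mpr (by linarith)
  have h2 : M + A.card * (Real.exp (-t) - 1) ≤ M * Real.exp (c' * (Real.exp (-t) - 1)) := by
    have h3 : (A.card : ℝ) * (Real.exp (-t) - 1) ≤ c' * M * (Real.exp (-t) - 1) :=
      mul_le_mul_of_nonpos_right hA (by linarith)
    have h4 := Real.add_one_le_exp (c' * (Real.exp (-t) - 1))
    nlinarith [mul_le_mul_of_nonneg_left h4 hM.le]
  have h3 : 0 ≤ M + A.card * (Real.exp (-t) - 1) := by
    have h4 : (A.card : ℝ) ≤ M := by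
      rw [hMdef]
      exact_mod_cast card_le_univ A
    have h5 : (A.card : ℝ) * (1 - Real.exp (-t)) ≤ M * 1 := by
      refine mul_le_mul h4 (by linarith [Real.exp_pos (-t)]) (by linarith) hM.le
    linarith
  have h4 := h1.trans (pow_le_pow_left₀ h3 h2 n)
  rw [mul_pow, ← Real.exp_nat_mul] at h4
  have h5 : Real.exp (n * (c' * (Real.exp (-t) - 1))) ≤
      Real.exp (-(t ^ 2 * n / 2)) * Real.exp (-t * (c * n)) := by
    rw [← Real.exp_add]
    refine Real.exp_le_exp.mpr ?_
    have hn : (0 : ℝ) ≤ n := Nat.cast_nonneg n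
    have h6 : c' * (Real.exp (-t) - 1) ≤ c' * (-t + t ^ 2 / 2) :=
      mul_le_mul_of_nonneg_left (by linarith) (by linarith)
    have h7 : c' * (-t + t ^ 2 / 2) ≤ -(t ^ 2 / 2) - t * c := by
      have h8 : c' = t + c := by rw [ht]; ring
      have h9 : c' * (t ^ 2 / 2) ≤ 1 * (t ^ 2 / 2) :=
        mul_le_mul_of_nonneg_right hc1 (by positivity)
      nlinarith
    calc (n : ℝ) * (c' * (Real.exp (-t) - 1)) ≤ n * (-(t ^ 2 / 2) - t * c) :=
          mul_le_mul_of_nonneg_left (h6.trans h7) hn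
      _ = -(t ^ 2 * n / 2) + -t * (c * n) := by ring
  have h6 : ((univ.filter (fun s : Fin n → Ω =>
      ((univ.filter (fun i => s i ∈ A)).card : ℝ) ≤ c * n)).card : ℝ) * Real.exp (-t * (c * n)) ≤
      (M ^ n * Real.exp (-(t ^ 2 * n / 2))) * Real.exp (-t * (c * n)) := by
    refine h4.trans ?_
    rw [mul_assoc]
    exact mul_le_mul_of_nonneg_left h5 (by positivity)
  exact le_of_mul_le_mul_right h6 (Real.exp_pos _)

/-- few samples see a small set often -/
lemma high [Nonempty Ω] (B : Finset Ω) (n : ℕ) (ε : ℝ) (hε : 0 < ε)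
    (hB : (B.card : ℝ) ≤ ε / 8 * Fintype.card Ω) :
    ((univ.filter (fun s : Fin n → Ω =>
      ε * n < ((univ.filter (fun i => s i ∈ B)).card : ℝ))).card : ℝ) ≤
      (Fintype.card Ω : ℝ) ^ n * Real.exp (-(ε * n)) := by
  have hM : (0 : ℝ) < Fintype.card Ω := by exact_mod_cast Fintype.card_pos
  set M : ℝ := ((Fintype.card Ω : ℕ) : ℝ) with hMdef
  have h1 : ((univ.filter (fun s : Fin n → Ω =>
      ε * n < ((univ.filter (fun i => s i ∈ B)).card : ℝ))).card : ℝ) * Real.exp (2 * (ε * n)) ≤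
      (M + B.card * (Real.exp 2 - 1)) ^ n := by
    rw [← mom B n 2, ← nsmul_eq_mul, ← Finset.sum_const]
    refine (Finset.sum_le_sum fun s hs => ?_).trans
      (Finset.sum_le_sum_of_subset_of_nonneg (Finset.filter_subset _ _) fun s _ _ =>
        (Real.exp_pos _).le)
    refine Real.exp_le_exp.mpr ?_
    have := (Finset.mem_filter.mp hs).2
    linarith
  have he : Real.exp 2 - 1 ≤ 8 := by
    have h2 : Real.exp 2 = Real.exp 1 * Real.exp 1 := by
      rw [← Real.exp_add]
      norm_num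
    have h3 := Real.exp_one_lt_d9
    have h4 := Real.exp_pos 1
    rw [h2]
    nlinarith
  have he0 : 0 ≤ Real.exp 2 - 1 := by
    have := Real.add_one_le_exp (2 : ℝ)
    linarith
  have h2 : M + B.card * (Real.exp 2 - 1) ≤ M * Real.exp ε := by
    have h3 : (B.card : ℝ) * (Real.exp 2 - 1) ≤ (ε / 8 * M) * 8 :=
      mul_le_mul hB he he0 (by positivity)
    have h4 := Real.add_one_le_exp ε
    nlinarith [mul_le_mul_of_nonneg_left h4 hM.le]
  have h3 : 0 ≤ M + B.card * (Real.exp 2 - 1) := by positivity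
  have h4 := h1.trans (pow_le_pow_left₀ h3 h2 n)
  rw [mul_pow, ← Real.exp_nat_mul] at h4
  have h5 : Real.exp (n * ε) = Real.exp (-(ε * n)) * Real.exp (2 * (ε * n)) := by
    rw [← Real.exp_add]
    congr 1
    ring
  rw [h5, ← mul_assoc (M ^ n)] at h4
  exact le_of_mul_le_mul_right h4 (Real.exp_pos _)

end SampAux

open SampAux in
theorem samp : SampStmt := by
  intro Ω V _ _ _ A near n c c' ε hc hcc hcc1 hc1 hε hA hnear hlt
  have hM : (0 : ℝ) < (Fintype.card Ω : ℝ) ^ n := by
    have : (0 : ℝ) < Fintype.card Ω := by exact_mod_cast Fintype.card_pos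
    positivity
  set L : V → Finset (Fin n → Ω) := fun v => univ.filter (fun s : Fin n → Ω =>
      ((univ.filter (fun i => s i ∈ A v)).card : ℝ) ≤ c * n) with hL
  set H : V × V → Finset (Fin n → Ω) := fun q => if near q.1 q.2 then
    univ.filter (fun s : Fin n → Ω =>
      ε * n < ((univ.filter (fun i => s i ∈ A q.1 ∩ A q.2)).card : ℝ)) else ∅ with hH
  have hLc : ∀ v, ((L v).card : ℝ) ≤
      (Fintype.card Ω : ℝ) ^ n * Real.exp (-((c' - c) ^ 2 * n / 2)) := fun v =>
    low (A v) n c c' hc hcc hc1 (hA v)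
  have hHc : ∀ q, ((H q).card : ℝ) ≤ (Fintype.card Ω : ℝ) ^ n * Real.exp (-(ε * n)) := by
    intro q
    simp only [hH]
    split_ifs with h
    · exact high _ n ε hε (hnear _ _ h)
    · simp only [card_empty, Nat.cast_zero]
      positivity
  set Bad : Finset (Fin n → Ω) := univ.biUnion L ∪ univ.biUnion H with hBad
  have hcard : (Bad.card : ℝ) < (Fintype.card Ω : ℝ) ^ n := by
    have h1 : (Bad.card : ℝ) ≤ ∑ v, ((L v).card : ℝ) + ∑ q, ((H q).card : ℝ) := by
      have h2 : Bad.card ≤ ∑ v, (L v).card + ∑ q, (H q).card :=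
        (card_union_le _ _).trans (Nat.add_le_add card_biUnion_le card_biUnion_le)
      exact_mod_cast h2
    have h2 : ∑ v, ((L v).card : ℝ) ≤ Fintype.card V *
        ((Fintype.card Ω : ℝ) ^ n * Real.exp (-((c' - c) ^ 2 * n / 2))) := by
      refine (Finset.sum_le_sum fun v _ => hLc v).trans ?_
      rw [Finset.sum_const, card_univ, nsmul_eq_mul]
    have h3 : ∑ q, ((H q).card : ℝ) ≤ (Fintype.card V : ℝ) ^ 2 *
        ((Fintype.card Ω : ℝ) ^ n * Real.exp (-(ε * n))) := by
      refine (Finset.sum_le_sum fun q _ => hHc q).trans ?_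
      rw [Finset.sum_const, card_univ, nsmul_eq_mul, Fintype.card_prod]
      push_cast
      rw [sq]
    have h4 := mul_lt_mul_of_pos_left hlt hM
    nlinarith
  have hex : ∃ s, s ∉ Bad := by
    by_contra hcon
    push Not at hcon
    have h1 : Bad = univ := Finset.eq_univ_iff_forall.mpr hcon
    rw [h1, card_univ, Fintype.card_fun, Fintype.card_fin] at hcard
    push_cast at hcard
    exact lt_irrefl _ hcard
  obtain ⟨s, hs⟩ := hex
  rw [hBad, mem_union, not_or] at hs
  refine ⟨s, fun v => ?_, fun v w hvw => ?_⟩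
  · by_contra hcon
    push Not at hcon
    exact hs.1 (mem_biUnion.mpr ⟨v, mem_univ _, mem_filter.mpr ⟨mem_univ _, hcon⟩⟩)
  · by_contra hcon
    push Not at hcon
    refine hs.2 (mem_biUnion.mpr ⟨(v, w), mem_univ _, ?_⟩)
    simp only [hH]
    rw [if_pos hvw, mem_filter]
    refine ⟨mem_univ _, ?_⟩
    have h1 : univ.filter (fun i => s i ∈ A v ∩ A w) =
        univ.filter (fun i => s i ∈ A v) ∩ univ.filter (fun i => s i ∈ A w) := by
      ext i
      simp
    rw [h1]
    exact hcon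

end Pool.Agent.Lib.MP_cecf76_co.Grid
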