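import Mathlib
import Pool.Agent.Lib.MP_cecf76_co.Grid.Stmts

set_option autoImplicit false

/-! Tensorisation of the discrete Prekopa-Leindler inequality and the isoperimetric consequence. -/

namespace Pool.Agent.Lib.MP_cecf76_co.Grid

open Finset

lemma sum_cons {q N : ℕ} (F : (Fin (N + 1) → Fin q) → ℝ) :
    ∑ x, F x = ∑ a : Fin q, ∑ x : Fin N → Fin q, F (Fin.cons a x) := by
  rw [← (Fin.consEquiv (fun _ : Fin (N + 1) => Fin q)).sum_comp, Fintype.sum_prod_type]
  rfl

theorem tensor (h1 : OneDimStmt) : TensorStmt := by
  intro q N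
  induction N with
  | zero =>
    intro f g hq hf hg h
    have e1 : ∀ F : (Fin 0 → Fin q) → ℝ, ∑ x, F x = F Fin.elim0 := by
      intro F
      rw [Fintype.sum_unique]
      congr 1
    rw [e1, e1]
    have := h Fin.elim0 Fin.elim0
    simpa using this
  | succ N ih =>
    intro f g hq hf hg h
    rw [sum_cons f, sum_cons g]
    have hqN : (0 : ℝ) < (q : ℝ) ^ N := by positivity
    have key := h1 q (fun a => (∑ x : Fin N → Fin q, f (Fin.cons a x)) / (q : ℝ) ^ N)
      (fun a => (∑ x : Fin N → Fin q, g (Fin.cons a x)) / (q : ℝ) ^ N) hq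
      (fun a => div_nonneg (sum_nonneg (fun _ _ => hf _)) hqN.le)
      (fun a => div_nonneg (sum_nonneg (fun _ _ => hg _)) hqN.le) (by
        intro a b
        have h2 := ih (fun x => f (Fin.cons a x)) (fun y => g (Fin.cons b y) *
          Real.exp (-(cost q a b))) hq (fun _ => hf _)
          (fun _ => mul_nonneg (hg _) (Real.exp_pos _).le) (by
            intro x y
            have h3 := h (Fin.cons a x) (Fin.cons b y)
            rw [Fin.sum_univ_succ] at h3
            simp only [Fin.cons_zero, Fin.cons_succ] at h3
            rw [Real.exp_add] at h3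
            calc f (Fin.cons a x) * (g (Fin.cons b y) * Real.exp (-(cost q a b)))
                = (f (Fin.cons a x) * g (Fin.cons b y)) * Real.exp (-(cost q a b)) := by ring
              _ ≤ (Real.exp (cost q a b) * Real.exp (∑ i, cost q (x i) (y i))) *
                  Real.exp (-(cost q a b)) :=
                  mul_le_mul_of_nonneg_right h3 (Real.exp_pos _).le
              _ = Real.exp (∑ i, cost q (x i) (y i)) *
                  (Real.exp (cost q a b) * Real.exp (-(cost q a b))) := by ring
              _ = Real.exp (∑ i, cost q (x i) (y i)) := by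
                  rw [← Real.exp_add]; simp)
        rw [← sum_mul] at h2
        have h4 : (∑ x : Fin N → Fin q, f (Fin.cons a x)) * (∑ x : Fin N → Fin q, g (Fin.cons b x)) ≤
            ((q : ℝ) ^ N) ^ 2 * Real.exp (cost q a b) := by
          have h5 := mul_le_mul_of_nonneg_right h2 (Real.exp_pos (cost q a b)).le
          refine le_trans (le_of_eq ?_) h5
          have : Real.exp (-(cost q a b)) * Real.exp (cost q a b) = 1 := by
            rw [← Real.exp_add]; simp
          calc (∑ x : Fin N → Fin q, f (Fin.cons a x)) * (∑ x : Fin N → Fin q, g (Fin.cons b x))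
              = (∑ x : Fin N → Fin q, f (Fin.cons a x)) * (∑ x : Fin N → Fin q, g (Fin.cons b x)) *
                (Real.exp (-(cost q a b)) * Real.exp (cost q a b)) := by rw [this, mul_one]
            _ = _ := by ring
        rw [div_mul_div_comm, div_le_iff₀ (by positivity)]
        refine h4.trans (le_of_eq ?_)
        ring)
    rw [← sum_div, ← sum_div, div_mul_div_comm, div_le_iff₀ (by positivity)] at key
    refine key.trans (le_of_eq ?_)
    rw [pow_succ]
    ring

theorem iso (h2 : TensorStmt) : IsoStmt := by
  intro q N I r hq h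
  have hrev : ∀ x : Fin q, Fin.rev (Fin.rev x) = x := Fin.rev_rev
  have key := h2 q N (fun x => if x ∈ I then Real.exp (r / 2) else 0)
    (fun y => if (fun i => Fin.rev (y i)) ∈ I then Real.exp (r / 2) else 0) hq
    (fun x => by split <;> positivity) (fun x => by split <;> positivity) (by
      intro x y
      by_cases hx : x ∈ I
      · by_cases hy : (fun i => Fin.rev (y i)) ∈ I
        · rw [if_pos hx, if_pos hy, ← Real.exp_add]
          apply Real.exp_le_exp.2
          have h3 := h x hx _ hy
          simp only [Fin.rev_rev] at h3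
          linarith
        · rw [if_neg hy, mul_zero]; exact (Real.exp_pos _).le
      · rw [if_neg hx, zero_mul]; exact (Real.exp_pos _).le)
  have e1 : ∑ x : Fin N → Fin q, (if x ∈ I then Real.exp (r / 2) else 0) =
      I.card * Real.exp (r / 2) := by
    rw [← sum_filter, sum_const, nsmul_eq_mul]
    simp
  have e2 : ∑ y : Fin N → Fin q, (if (fun i => Fin.rev (y i)) ∈ I then Real.exp (r / 2) else 0) =
      I.card * Real.exp (r / 2) := by
    rw [← e1]
    let e : (Fin N → Fin q) ≃ (Fin N → Fin q) := Equiv.piCongrRight (fun _ => Fin.revPerm)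
    rw [← e.sum_comp (fun x => if x ∈ I then Real.exp (r / 2) else 0)]
    rfl
  rw [e1, e2] at key
  have h3 : (I.card * Real.exp (r / 2)) ^ 2 ≤ ((q : ℝ) ^ N) ^ 2 := by
    rw [sq]; exact key
  have h4 : (I.card : ℝ) * Real.exp (r / 2) ≤ (q : ℝ) ^ N :=
    (pow_le_pow_iff_left₀ (by positivity) (by positivity) (by norm_num)).1 h3
  calc (I.card : ℝ) = (I.card * Real.exp (r / 2)) * Real.exp (-(r / 2)) := by
        rw [mul_assoc, ← Real.exp_add]; simp
    _ ≤ _ := mul_le_mul_of_nonneg_right h4 (Real.exp_pos _).le

end Pool.Agent.Lib.MP_cecf76_co.Grid
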