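import Mathlib
import Pool.Agent.Lib.MP_cecf76_co.Core
import Pool.Agent.Lib.MP_cecf76_co.Grid.Asm
import Pool.Agent.Lib.MP_cecf76_co.Grid.Tensor
import Pool.Agent.Lib.MP_cecf76_co.Grid.OneDim
import Pool.Agent.Lib.MP_cecf76_co.Grid.LO
import Pool.Agent.Lib.MP_cecf76_co.Grid.Hoeff
import Pool.Agent.Lib.MP_cecf76_co.Grid.Good
import Pool.Agent.Lib.MP_cecf76_co.Grid.Samp

set_option autoImplicit false

/-! Choice of the parameters. -/

namespace Pool.Agent.Lib.MP_cecf76_co.Grid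

theorem grid_upper {n m : ℕ} {c ε : ℝ} (hn : 0 < n) (hm : 0 < m) (hε : 0 < ε) (hεc : ε ≤ c)
    (hc : c < 1 / 2) (Λ : ℝ) (hΛ : Λ = 64 * Real.log (8 / ε) / (1 / 2 - c) ^ 2) :
    (f n m c ε : ℝ) ≤ 13 * m * Real.exp (-(min (Real.log m)
      (min (ε / 3) ((1 / 2 - c) ^ 2 / 16) * n) / (32 * Λ * Real.log (9 * Λ)))) := by
  set γ : ℝ := 1 / 2 - c with hγ
  have hγ0 : 0 < γ := by linarith
  have hγ1 : γ < 1 / 2 := by linarith
  have hγ2 : γ ^ 2 < 1 / 4 := by nlinarith
  have hnR : (0 : ℝ) < n := by exact_mod_cast hn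
  have hmR : (1 : ℝ) ≤ m := by exact_mod_cast hm
  have hm0 : (0 : ℝ) < m := by linarith
  have hlogm : 0 ≤ Real.log m := Real.log_nonneg hmR
  set ℓ : ℝ := Real.log (8 / ε) with hℓ
  have hℓ2 : 2 < ℓ := by
    have h1 : Real.log 16 ≤ ℓ := by
      apply Real.log_le_log (by norm_num)
      rw [le_div_iff₀ hε]; linarith
    have h2 : Real.log 16 = 4 * Real.log 2 := by
      rw [show (16 : ℝ) = 2 ^ 4 by norm_num, Real.log_pow]; norm_num
    have h3 : (0.6931471803 : ℝ) < Real.log 2 := Real.log_two_gt_d9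
    linarith
  have hΛγ : Λ * γ ^ 2 = 64 * ℓ := by rw [hΛ]; field_simp
  have hΛ512 : 512 < Λ := by
    by_contra hcon
    push Not at hcon
    have : Λ * γ ^ 2 ≤ 512 * (1 / 4) := by
      have h1 : Λ * γ ^ 2 ≤ 512 * γ ^ 2 := mul_le_mul_of_nonneg_right hcon (by positivity)
      linarith
    linarith
  have hΛ0 : 0 < Λ := by linarith
  set η : ℝ := 1 / Λ with hη
  have hη0 : 0 < η := by positivity
  have hηΛ : η * Λ = 1 := by rw [hη]; field_simp
  set τ : ℝ := γ / 8 with hτ
  have hτ0 : 0 < τ := by positivity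
  have hτη : τ ^ 2 / η = ℓ := by
    rw [hτ, hη, div_div_eq_mul_div, div_one]
    have : (γ / 8) ^ 2 * Λ = (Λ * γ ^ 2) / 64 := by ring
    rw [this, hΛγ]; ring
  set q : ℕ := ⌈Real.sqrt (8 * Λ)⌉₊ with hq
  have hsq : Real.sqrt (8 * Λ) ^ 2 = 8 * Λ := Real.sq_sqrt (by positivity)
  have hs64 : 64 ≤ Real.sqrt (8 * Λ) := by
    apply Real.le_sqrt_of_sq_le
    linarith
  have hq1 : Real.sqrt (8 * Λ) ≤ q := Nat.le_ceil _
  have hq2 : (q : ℝ) ≤ Real.sqrt (8 * Λ) + 1 := (Nat.ceil_lt_add_one (by positivity)).le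
  have hq8R : (64 : ℝ) ≤ q := hs64.trans hq1
  have hq8 : 8 ≤ q := by
    have : 64 ≤ q := by exact_mod_cast hq8R
    omega
  have hq0R : (0 : ℝ) < q := by linarith
  have hqsq : 8 * Λ ≤ (q : ℝ) ^ 2 := by
    rw [← hsq]; exact pow_le_pow_left₀ (by positivity) hq1 2
  have hηq : 8 ≤ η * (q : ℝ) ^ 2 := by
    have h1 : η * (8 * Λ) ≤ η * (q : ℝ) ^ 2 := mul_le_mul_of_nonneg_left hqsq hη0.le
    have h2 : η * (8 * Λ) = 8 := by
      calc η * (8 * Λ) = 8 * (η * Λ) := by ring
        _ = 8 := by rw [hηΛ]; norm_num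
    linarith
  have hqsq2 : (q : ℝ) ^ 2 ≤ 9 * Λ := by
    have h1 : (q : ℝ) ^ 2 ≤ (Real.sqrt (8 * Λ) + 1) ^ 2 := pow_le_pow_left₀ hq0R.le hq2 2
    have h2 : (Real.sqrt (8 * Λ) + 1) ^ 2 = 8 * Λ + 2 * Real.sqrt (8 * Λ) + 1 := by
      rw [add_sq, hsq]; ring
    have h3 : 2 * Real.sqrt (8 * Λ) + 1 ≤ Λ := by
      have h4 : Real.sqrt (8 * Λ) * 64 ≤ Real.sqrt (8 * Λ) * Real.sqrt (8 * Λ) :=
        mul_le_mul_of_nonneg_left hs64 (by positivity)
      have h5 : Real.sqrt (8 * Λ) * Real.sqrt (8 * Λ) = 8 * Λ := by rw [← sq]; exact hsq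
      linarith
    linarith
  have hlogq : 2 * Real.log q ≤ Real.log (9 * Λ) := by
    have h1 := Real.log_le_log (by positivity) hqsq2
    rw [Real.log_pow] at h1
    exact_mod_cast h1
  have hlogq1 : 1 ≤ Real.log q := by
    have h1 : Real.log 8 ≤ Real.log q := Real.log_le_log (by norm_num) (by linarith)
    have h2 : Real.log 8 = 3 * Real.log 2 := by
      rw [show (8 : ℝ) = 2 ^ 3 by norm_num, Real.log_pow]; norm_num
    have h3 : (0.6931471803 : ℝ) < Real.log 2 := Real.log_two_gt_d9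
    linarith
  have hlogq0 : 0 < Real.log q := by linarith
  set lΛ : ℝ := Real.log (9 * Λ) with hlΛ
  have hlΛ0 : 0 < lΛ := by linarith
  set ρ : ℝ := min (ε / 3) (γ ^ 2 / 16) with hρ
  have hρ0 : 0 < ρ := lt_min (by positivity) (by positivity)
  have hρ1 : ρ ≤ ε / 3 := min_le_left _ _
  have hρ2 : ρ ≤ γ ^ 2 / 16 := min_le_right _ _
  set X : ℝ := min (Real.log m) (ρ * n) with hX
  have hX0 : 0 ≤ X := le_min hlogm (by positivity)
  have hX1 : X ≤ Real.log m := min_le_left _ _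
  have hX2 : X ≤ ρ * n := min_le_right _ _
  set N : ℕ := ⌊X / Real.log q⌋₊ with hN
  have hN1 : (N : ℝ) ≤ X / Real.log q := Nat.floor_le (by positivity)
  have hN2 : X / Real.log q < N + 1 := Nat.lt_floor_add_one _
  have hN3 : (N : ℝ) * Real.log q ≤ X := by rwa [le_div_iff₀ hlogq0] at hN1
  have hN4 : X < (N + 1) * Real.log q := by rwa [div_lt_iff₀ hlogq0] at hN2
  rcases lt_or_ge (N : ℝ) (16 / γ ^ 2) with h | h
  · -- trivial range
    have h2 : (f n m c ε : ℝ) ≤ m := by exact_mod_cast (f_mem n m c ε).1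
    have hx : X / (32 * Λ * lΛ) ≤ 1 / 2 := by
      rw [div_le_iff₀ (by positivity)]
      have h3 : X ≤ (16 / γ ^ 2 + 1) * Real.log q := by
        have : ((N : ℝ) + 1) * Real.log q ≤ (16 / γ ^ 2 + 1) * Real.log q :=
          mul_le_mul_of_nonneg_right (by linarith) hlogq0.le
        linarith
      have h4 : 16 / γ ^ 2 = Λ / (4 * ℓ) := by
        have : Λ = 64 * ℓ / γ ^ 2 := hΛ
        rw [this]; field_simp; norm_num
      have h5 : Λ / (4 * ℓ) ≤ Λ := by
        apply div_le_self hΛ0.le; linarith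
      have h6 : (16 / γ ^ 2 + 1) * Real.log q ≤ (2 * Λ) * (lΛ / 2) := by
        apply mul_le_mul (by rw [h4]; linarith) (by linarith) hlogq0.le (by positivity)
      nlinarith [mul_pos hΛ0 hlΛ0]
    have h3 : 1 ≤ 13 * Real.exp (-(X / (32 * Λ * lΛ))) := by
      have := Real.add_one_le_exp (-(X / (32 * Λ * lΛ)))
      linarith
    calc (f n m c ε : ℝ) ≤ m := h2
      _ = m * 1 := by ring
      _ ≤ m * (13 * Real.exp (-(X / (32 * Λ * lΛ)))) :=
          mul_le_mul_of_nonneg_left h3 (by positivity)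
      _ = _ := by ring
  · have h64 : (64 : ℝ) ≤ N := by
      refine le_trans ?_ h
      rw [le_div_iff₀ (by positivity)]
      linarith
    have hN0R : (0 : ℝ) < N := by linarith
    have hN0 : 0 < N := by exact_mod_cast hN0R
    have hsqrtN : 1 / Real.sqrt N ≤ γ / 4 := by
      have h1 : 4 / γ ≤ Real.sqrt N := by
        apply Real.le_sqrt_of_sq_le
        rw [div_pow]
        norm_num
        exact h
      have h2 : 0 < Real.sqrt N := Real.sqrt_pos.2 hN0R
      rw [div_le_div_iff₀ h2 (by norm_num)]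
      rw [div_le_iff₀ hγ0] at h1
      linarith
    have hc'1 : γ / 2 ≤ 1 / 2 - 2 * τ - 1 / Real.sqrt N - c := by
      rw [hτ]; linarith
    have hqN : (q : ℝ) ^ N = Real.exp (N * Real.log q) := by
      rw [Real.exp_nat_mul, Real.exp_log hq0R]
    have hNlog : (N : ℝ) ≤ N * Real.log q := by nlinarith
    have hNlog2 : 2 ≤ N * Real.log q := by linarith
    have hexp2 : Real.exp (-(N * Real.log q)) ≤ 1 / 4 := by
      have h1 : (1 : ℝ) + 2 ≤ Real.exp 2 := by
        have := Real.add_one_le_exp (2 : ℝ); linarith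
      have h2 : Real.exp (-(N * Real.log q)) ≤ Real.exp (-2) := Real.exp_le_exp.2 (by linarith)
      have h3 : Real.exp 2 = Real.exp 1 * Real.exp 1 := by rw [← Real.exp_add]; norm_num
      have h4 : (2.7182818283 : ℝ) < Real.exp 1 := Real.exp_one_gt_d9
      have h5 : 4 ≤ Real.exp 2 := by rw [h3]; nlinarith
      rw [Real.exp_neg 2] at h2
      refine h2.trans ?_
      rw [one_div]
      exact inv_anti₀ (by norm_num) h5
    have hcore := grid_core (iso (tensor oneDim)) lo hoeff good samp (n := n) (m := m) (q := q)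
      (N := N) (c := c) (ε := ε) (τ := τ) (η := η) hq8 hN0 hn hτ0 hη0 hε hεc hηq
      (by rw [hτη]) (by linarith) (by
        have h1 : (q : ℝ) ^ N ≤ m := by
          rw [hqN]
          calc Real.exp (N * Real.log q) ≤ Real.exp (Real.log m) :=
                Real.exp_le_exp.2 (hN3.trans hX1)
            _ = m := Real.exp_log hm0
        exact_mod_cast h1) (by
        rw [hqN]
        have h1 : Real.exp (N * Real.log q) *
            Real.exp (-((1 / 2 - 2 * τ - 1 / Real.sqrt N - c) ^ 2 * n / 2)) ≤ 1 / 4 := by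
          rw [← Real.exp_add]
          refine le_trans (Real.exp_le_exp.2 ?_) hexp2
          have h2 : (γ / 2) ^ 2 ≤ (1 / 2 - 2 * τ - 1 / Real.sqrt N - c) ^ 2 :=
            pow_le_pow_left₀ (by positivity) hc'1 2
          have h3 : (γ / 2) ^ 2 * n ≤ (1 / 2 - 2 * τ - 1 / Real.sqrt N - c) ^ 2 * n :=
            mul_le_mul_of_nonneg_right h2 hnR.le
          have h4 : N * Real.log q ≤ γ ^ 2 / 16 * n :=
            (hN3.trans hX2).trans (mul_le_mul_of_nonneg_right hρ2 hnR.le)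
          nlinarith
        have h2 : Real.exp (N * Real.log q) ^ 2 * Real.exp (-(ε * n)) ≤ 1 / 4 := by
          rw [← Real.exp_nat_mul, ← Real.exp_add]
          refine le_trans (Real.exp_le_exp.2 ?_) hexp2
          have h4 : N * Real.log q ≤ ε / 3 * n :=
            (hN3.trans hX2).trans (mul_le_mul_of_nonneg_right hρ1 hnR.le)
          push_cast
          linarith
        linarith)
    refine hcore.trans ?_
    have hη1 : η ≤ 1 / 512 := by
      rw [hη]; exact one_div_le_one_div_of_le (by norm_num) hΛ512.le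
    have hstep : -(η * N / 64) ≤ 1 / 32768 + -(X / (32 * Λ * lΛ)) := by
      have h1 : X / (32 * Λ * lΛ) ≤ η * (N + 1) / 64 := by
        rw [div_le_iff₀ (by positivity)]
        have h2 : η * (N + 1) / 64 * (32 * Λ * lΛ) = (N + 1) * (lΛ / 2) * (η * Λ) := by ring
        rw [h2, hηΛ, mul_one]
        have h3 : ((N : ℝ) + 1) * Real.log q ≤ (N + 1) * (lΛ / 2) :=
          mul_le_mul_of_nonneg_left (by linarith) (by positivity)
        linarith
      linarith
    have h9 := Real.exp_le_exp.2 hstep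
    rw [Real.exp_add] at h9
    have h10 : Real.exp (1 / 32768) ≤ 13 / 12 := by
      have h11 := Real.abs_exp_sub_one_sub_id_le (x := (1 / 32768 : ℝ))
        (by rw [abs_of_pos (by norm_num)]; norm_num)
      have h12 := (abs_le.1 h11).2
      norm_num at h12 ⊢
      linarith
    have hp := Real.exp_pos (-(X / (32 * Λ * lΛ)))
    calc 12 * (m : ℝ) * Real.exp (-(η * N / 64))
        ≤ 12 * m * (Real.exp (1 / 32768) * Real.exp (-(X / (32 * Λ * lΛ)))) :=
          mul_le_mul_of_nonneg_left h9 (by positivity)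
      _ ≤ 12 * m * (13 / 12 * Real.exp (-(X / (32 * Λ * lΛ)))) := by
          apply mul_le_mul_of_nonneg_left _ (by positivity)
          exact mul_le_mul_of_nonneg_right h10 hp.le
      _ = _ := by ring

end Pool.Agent.Lib.MP_cecf76_co.Grid
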